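import Mathlib
import Pool.Agent.W289.SL.Defs

set_option autoImplicit false

/-!
# Definitions: the `χ`-part of the units, the rank of the `p`-adic regulator, separating characters
-/

namespace Pool.Agent.L7h10.SA

open NumberField Module Pool.Agent.W289.SL

section generic

variable {k V G ι : Type} [Field k] [AddCommGroup V] [Module k V]

/-- the simultaneous eigenspace: all `x` with `a g x = c g • x` for all `g` -/
def eig (a : G → V →ₗ[k] V) (c : G → k) : Submodule k V :=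
  ⨅ g, LinearMap.ker (a g - c g • LinearMap.id)

/-- its dimension -/
noncomputable def eigDim (a : G → V →ₗ[k] V) (c : G → k) : ℕ := finrank k (eig a c)

/-- the rank on the eigenspace of the map `x ↦ (f i x)_{i ∈ I}` (dimension of the image) -/
noncomputable def eigRank (a : G → V →ₗ[k] V) (c : G → k) (f : ι → V →ₗ[k] k) (I : Set ι) : ℕ :=
  finrank k ((eig a c).map (LinearMap.pi fun i : I => f i))

end generic

/-- `χ` separates the embeddings of `K` into `Ω`: for all embeddings `σ`, `σ'` of `H` which are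
different on `K` some automorphism `g` of `Ω` acts on them through elements `h`, `h'` of `Gal(H/K)`
with `χ(h) ≠ χ(h')`. -/
def Separating {Ω K H : Type} [Field Ω] [Field K] [Field H] [Algebra K H]
    (χ : (H ≃ₐ[K] H) →* Ωˣ) : Prop :=
  ∀ σ σ' : H →+* Ω, (∃ a : K, σ (algebraMap K H a) ≠ σ' (algebraMap K H a)) →
    ∃ (g : Ω ≃+* Ω) (h h' : H ≃ₐ[K] H),
      (∀ x, g (σ x) = σ (h x)) ∧ (∀ x, g (σ' x) = σ' (h' x)) ∧ χ h ≠ χ h'

section units

variable {p : ℕ} [Fact p.Prime] {K H : Type} [Field K] [Field H] [NumberField H] [Algebra K H]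

/-- the action of `Gal(H/K)` on `ℂ_p ⊗ 𝓞_H^×` -/
noncomputable def galAct (p : ℕ) [Fact p.Prime] (τ : H ≃ₐ[K] H) : UM p H →ₗ[ℂ_[p]] UM p H :=
  actLin p (τ : H →+* H)

/-- the dimension of the `χ`-part of `ℂ_p ⊗ 𝓞_H^×` -/
noncomputable def chiDim (χ : (H ≃ₐ[K] H) →* ℂ_[p]ˣ) : ℕ :=
  eigDim (galAct (K := K) (H := H) p) (fun τ => (χ τ : ℂ_[p]))

/-- the rank of `log_{S,p}` on the `χ`-part; the coordinates of `log_{S,p}(x)` are the logarithms
`log_p (σ x)`, `σ` an embedding of `H` whose restriction to `K` is in `S` -/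
noncomputable def rankLog (χ : (H ≃ₐ[K] H) →* ℂ_[p]ˣ) {L : ℂ_[p] → ℂ_[p]} (hL : IsIwasawaLog p L)
    (S : Set (K →+* ℂ_[p])) : ℕ :=
  eigRank (galAct (K := K) (H := H) p) (fun τ => (χ τ : ℂ_[p])) (logLin hL)
    {σ | σ.comp (algebraMap K H) ∈ S}

end units

/-- bounds for a rank function `r` on a finite set `C` with `2^d` elements (the set of CM types) -/
structure Ranks (d : ℕ) {T : Type} (C : Set T) (r : T → ℕ) : Prop where
  /-- number of elements -/
  count : C.ncard = 2 ^ d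
  /-- the best element -/
  best : ∃ S ∈ C, 2 * d ≤ 3 * r S
  /-- exponential mean -/
  expmean : ∑ᶠ S ∈ C, ((d : ℝ) / (d + 3)) ^ r S * (1 - 3 * r S / (2 * d)) ≤
    2 ^ d * (2 : ℝ) ^ (-(9 * (d : ℝ) / (d + 3)))
  /-- mean -/
  mean : (0.657 * d - 1 / 2) * 2 ^ d < ∑ᶠ S ∈ C, (r S : ℝ)
  /-- almost all elements -/
  almost : ∀ ε : ℝ, 0 ≤ ε →
    ({S ∈ C | (r S : ℝ) ≤ (0.657 - ε) * d - 1 / 2}.ncard : ℝ) ≤ 2 ^ d * Real.exp (-2 * ε ^ 2 * d)

end Pool.Agent.L7h10.SA
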