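import Pool.Agent.L7h1.SR.Stm

set_option autoImplicit false
set_option linter.unusedSectionVars false

/-!
# The dimension of the `χ`-part of the units of a totally complex field
-/

namespace Pool.Agent.L7h10.SA

open NumberField TensorProduct Pool.Agent.W289.SL Pool.Agent.W332.SL6 Module
open Pool.Agent.L7h1.SR
open Pool.Agent.W254.PA (exists_theta)
open NumberField.Units NumberField.Units.dirichletUnitTheorem

variable {p : ℕ} [Fact p.Prime]
variable {K H : Type} [Field K] [NumberField K] [Field H] [NumberField H] [Algebra K H]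
  [FiniteDimensional K H]

/-- all relations between the real logarithms on the `χ`-part -/
theorem rel_all [IsTotallyComplex K] (θ : ℂ_[p] ≃+* ℂ) (χ : (H ≃ₐ[K] H) →* ℂ_[p]ˣ)
    (s : InfinitePlace K → (H →+* ℂ))
    (hs : ∀ v, InfinitePlace.mk ((s v).comp (algebraMap K H)) = v) (c : InfinitePlace K → ℂ_[p])
    (h : ∀ u : Additive (𝓞 H)ˣ, ∑ v, c v * lam θ (s v) (xu χ u) = 0)
    (v v' : InfinitePlace K) (g g' : H ≃ₐ[K] H) :
    c v * ((χ g⁻¹ : ℂ_[p]ˣ) : ℂ_[p]) = c v' * ((χ g'⁻¹ : ℂ_[p]ˣ) : ℂ_[p]) := by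
  classical
  have : IsTotallyComplex H := isTotallyComplex_of_algebra K H
  let f : InfinitePlace H → ℂ := fun w =>
    ∑ v, ∑ g : H ≃ₐ[K] H, if InfinitePlace.mk ((s v).comp (g : H →+* H)) = w then
      θ (c v) * θ ((χ g⁻¹ : ℂ_[p]ˣ) : ℂ_[p]) else 0
  have hf : ∀ u : (𝓞 H)ˣ, ∑ w, f w * (Real.log (w (u : 𝓞 H)) : ℂ) = 0 := by
    intro u
    have h1 := congrArg θ (h (Additive.ofMul u))
    rw [map_sum, map_zero] at h1
    rw [← h1]
    have h2 : ∀ (t : H →+* ℂ) (d : ℂ_[p]), ∑ w : InfinitePlace H,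
        (∑ g : H ≃ₐ[K] H, if InfinitePlace.mk (t.comp (g : H →+* H)) = w then
          θ d * θ ((χ g⁻¹ : ℂ_[p]ˣ) : ℂ_[p]) else 0) * (Real.log (w (u : 𝓞 H)) : ℂ) =
        θ d * ∑ g : H ≃ₐ[K] H, θ ((χ g⁻¹ : ℂ_[p]ˣ) : ℂ_[p]) *
          ((Real.log (InfinitePlace.mk (t.comp (g : H →+* H)) (u : 𝓞 H)) : ℝ) : ℂ) := by
      intro t d
      simp only [Finset.sum_mul]
      rw [Finset.sum_comm, Finset.mul_sum]
      refine Finset.sum_congr rfl fun g _ => ?_
      rw [Finset.sum_eq_single (InfinitePlace.mk (t.comp (g : H →+* H)))]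
      · rw [if_pos rfl]; ring
      · intro w _ hw
        rw [if_neg (Ne.symm hw), zero_mul]
      · intro hw
        exact absurd (Finset.mem_univ _) hw
    simp only [f]
    have h3 : ∀ w : InfinitePlace H, (∑ v, ∑ g : H ≃ₐ[K] H,
        if InfinitePlace.mk ((s v).comp (g : H →+* H)) = w then
          θ (c v) * θ ((χ g⁻¹ : ℂ_[p]ˣ) : ℂ_[p]) else 0) * (Real.log (w (u : 𝓞 H)) : ℂ) =
        ∑ v, (∑ g : H ≃ₐ[K] H, if InfinitePlace.mk ((s v).comp (g : H →+* H)) = w then
          θ (c v) * θ ((χ g⁻¹ : ℂ_[p]ˣ) : ℂ_[p]) else 0) * (Real.log (w (u : 𝓞 H)) : ℂ) :=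
      fun w => Finset.sum_mul _ _ _
    rw [Finset.sum_congr rfl fun w _ => h3 w, Finset.sum_comm]
    refine Finset.sum_congr rfl fun v _ => ?_
    rw [h2, map_mul, lam_xu]
  have hconst := const_of_rel f hf
  have hv : ∀ (v : InfinitePlace K) (g : H ≃ₐ[K] H),
      f (InfinitePlace.mk ((s v).comp (g : H →+* H))) = θ (c v) * θ ((χ g⁻¹ : ℂ_[p]ˣ) : ℂ_[p]) := by
    intro v g
    simp only [f]
    rw [Finset.sum_eq_single v]
    · rw [Finset.sum_eq_single g (fun g' _ hg' => if_neg (fun hh => hg' (mk_inj (s v) g' g hh)))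
        (fun hh => absurd (Finset.mem_univ _) hh), if_pos rfl]
    · intro v' _ hv'
      refine Finset.sum_eq_zero fun g' _ => if_neg fun hh => ?_
      refine mk_ne (s v') (s v) ?_ g' g hh
      rw [hs, hs]
      exact hv'
    · intro hh
      exact absurd (Finset.mem_univ _) hh
  have h4 := hconst (InfinitePlace.mk ((s v).comp (g : H →+* H)))
    (InfinitePlace.mk ((s v').comp (g' : H →+* H)))
  rw [hv, hv, ← map_mul, ← map_mul] at h4
  exact θ.injective h4

/-- embeddings of `H` over the places of `K` -/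
lemma exists_s (K H : Type) [Field K] [NumberField K] [Field H] [NumberField H] [Algebra K H] :
    ∃ s : InfinitePlace K → (H →+* ℂ),
      ∀ v, InfinitePlace.mk ((s v).comp (algebraMap K H)) = v := by
  have : Algebra.IsAlgebraic K H := Algebra.IsAlgebraic.tower_top (K := ℚ) K
  have hsurj := InfinitePlace.comap_surjective (k := K) (K := H)
  refine ⟨fun v => (hsurj v).choose.embedding, fun v => ?_⟩
  have h := (hsurj v).choose_spec
  rw [← InfinitePlace.comap_mk, InfinitePlace.mk_embedding]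
  exact h

/-- the real logarithms on the `χ`-part -/
noncomputable def Phi (θ : ℂ_[p] ≃+* ℂ) (χ : (H ≃ₐ[K] H) →* ℂ_[p]ˣ)
    (s : InfinitePlace K → (H →+* ℂ)) : chiPart p K H χ →ₗ[ℂ_[p]] (InfinitePlace K → ℂ_[p]) :=
  LinearMap.pi fun v => (lam θ (s v)).comp (chiPart p K H χ).subtype

lemma Phi_inj [IsGalois K H] (θ : ℂ_[p] ≃+* ℂ) (χ : (H ≃ₐ[K] H) →* ℂ_[p]ˣ)
    (s : InfinitePlace K → (H →+* ℂ))
    (hs : ∀ v, InfinitePlace.mk ((s v).comp (algebraMap K H)) = v) :
    Function.Injective (Phi θ χ s) := by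
  rw [injective_iff_map_eq_zero]
  intro x hx
  have hxc : InChi χ (x : UM p H) := x.2
  apply Subtype.ext
  refine eq_zero_of_lam θ _ fun t => ?_
  refine lam_zero_of_place θ hxc t (s (InfinitePlace.mk (t.comp (algebraMap K H)))) ?_ ?_
  · rw [hs]
  · exact congrFun hx _

open scoped Classical in
/-- coefficients of a linear form which vanishes on the range -/
lemma ann [IsTotallyComplex K] (θ : ℂ_[p] ≃+* ℂ) (χ : (H ≃ₐ[K] H) →* ℂ_[p]ˣ)
    (s : InfinitePlace K → (H →+* ℂ))
    (hs : ∀ v, InfinitePlace.mk ((s v).comp (algebraMap K H)) = v)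
    (f : (InfinitePlace K → ℂ_[p]) →ₗ[ℂ_[p]] ℂ_[p])
    (hf : LinearMap.range (Phi θ χ s) ≤ LinearMap.ker f)
    (v v' : InfinitePlace K) (g g' : H ≃ₐ[K] H) :
    f (Pi.single v 1) * ((χ g⁻¹ : ℂ_[p]ˣ) : ℂ_[p]) =
      f (Pi.single v' 1) * ((χ g'⁻¹ : ℂ_[p]ˣ) : ℂ_[p]) := by
  classical
  refine rel_all θ χ s hs (fun v => f (Pi.single v 1)) (fun u => ?_) v v' g g'
  have h1 : f (Phi θ χ s ⟨xu χ u, xu_inChi χ u⟩) = 0 :=
    hf (LinearMap.mem_range_self _ _)
  have h2 : Phi θ χ s ⟨xu χ u, xu_inChi χ u⟩ = ∑ v, lam θ (s v) (xu χ u) • Pi.single v 1 := by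
    funext w
    rw [Finset.sum_apply, Finset.sum_eq_single w]
    · rw [Pi.smul_apply, Pi.single_eq_same, smul_eq_mul, mul_one]
      rfl
    · intro v _ hv
      rw [Pi.smul_apply, Pi.single_eq_of_ne (Ne.symm hv), smul_zero]
    · intro h
      exact absurd (Finset.mem_univ _) h
  rw [h2, map_sum] at h1
  rw [← h1]
  refine Finset.sum_congr rfl fun v _ => ?_
  rw [map_smul, smul_eq_mul, mul_comm]

lemma card_places (K : Type) [Field K] [NumberField K] [IsTotallyComplex K] :
    2 * Fintype.card (InfinitePlace K) = finrank ℚ K := by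
  have h1 := InfinitePlace.card_add_two_mul_card_eq_rank K
  have h2 := InfinitePlace.card_eq_nrRealPlaces_add_nrComplexPlaces K
  have h3 : InfinitePlace.nrRealPlaces K = 0 := IsTotallyComplex.nrRealPlaces_eq_zero K
  omega

/-- the dimension of the `χ`-part for `χ ≠ 1` -/
theorem dim_ne [IsTotallyComplex K] [IsGalois K H] {χ : (H ≃ₐ[K] H) →* ℂ_[p]ˣ} (hχ : χ ≠ 1) :
    2 * finrank ℂ_[p] (chiPart p K H χ) = finrank ℚ K := by
  classical
  obtain ⟨θ⟩ := exists_theta p
  obtain ⟨s, hs⟩ := exists_s K H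
  obtain ⟨g0, hg0⟩ : ∃ g0 : H ≃ₐ[K] H, χ g0 ≠ 1 := by
    by_contra hcon
    push Not at hcon
    exact hχ (MonoidHom.ext hcon)
  have hsurj : LinearMap.range (Phi θ χ s) = ⊤ := by
    by_contra hne
    obtain ⟨f, hf0, hf⟩ := Submodule.exists_le_ker_of_lt_top _ (lt_top_iff_ne_top.2 hne)
    apply hf0
    refine LinearMap.pi_ext' fun v => LinearMap.ext_ring ?_
    have h1 := ann θ χ s hs f hf v v (g0⁻¹) 1
    rw [inv_inv, inv_one, map_one, Units.val_one, mul_one] at h1
    change f (Pi.single v 1) = 0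
    by_contra hd0
    apply hg0
    apply Units.ext
    have h4 : f (Pi.single v 1) * ((χ g0 : ℂ_[p]ˣ) : ℂ_[p]) = f (Pi.single v 1) * 1 := by
      rw [mul_one]
      convert h1
    exact mul_left_cancel₀ hd0 h4
  have e := LinearEquiv.ofBijective (Phi θ χ s) ⟨Phi_inj θ χ s hs, LinearMap.range_eq_top.1 hsurj⟩
  rw [e.finrank_eq, Module.finrank_fintype_fun_eq_card, card_places]

/-- the product formula -/
lemma prod_formula [IsTotallyComplex H] (θ : ℂ_[p] ≃+* ℂ) (x : UM p H) :
    ∑ w : InfinitePlace H, lam θ w.embedding x = 0 := by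
  classical
  induction x using TensorProduct.induction_on with
  | zero => simp
  | tmul c u =>
    have h1 : ∑ w : InfinitePlace H, Real.log (w ((Additive.toMul u : (𝓞 H)ˣ) : 𝓞 H)) = 0 := by
      have h2 := sum_mult_mul_log (Additive.toMul u)
      have hmult : ∀ w : InfinitePlace H, (InfinitePlace.mult w : ℝ) = 2 := by
        intro w
        have h1 : InfinitePlace.IsComplex w := IsTotallyComplex.isComplex w
        rw [InfinitePlace.mult, if_neg (by rwa [InfinitePlace.not_isReal_iff_isComplex])]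
        norm_num
      simp only [hmult] at h2
      rw [← Finset.mul_sum] at h2
      linarith
    have h2 : ∀ w : InfinitePlace H, lam θ w.embedding (c ⊗ₜ u) =
        c * θ.symm (Real.log (w ((Additive.toMul u : (𝓞 H)ˣ) : 𝓞 H)) : ℂ) := by
      intro w
      rw [lam_tmul, InfinitePlace.norm_embedding_eq]
    rw [Finset.sum_congr rfl fun w _ => h2 w, ← Finset.mul_sum, ← map_sum, ← Complex.ofReal_sum,
      h1, Complex.ofReal_zero, map_zero, mul_zero]
  | add x y hx hy =>
    simp only [map_add, Finset.sum_add_distrib, hx, hy, add_zero]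

lemma sum_lam_one [IsTotallyComplex K] [IsGalois K H] (θ : ℂ_[p] ≃+* ℂ)
    (s : InfinitePlace K → (H →+* ℂ))
    (hs : ∀ v, InfinitePlace.mk ((s v).comp (algebraMap K H)) = v)
    {x : UM p H} (hx : InChi (K := K) (1 : (H ≃ₐ[K] H) →* ℂ_[p]ˣ) x) :
    ∑ v, lam θ (s v) x = 0 := by
  classical
  have : IsTotallyComplex H := isTotallyComplex_of_algebra K H
  let E : InfinitePlace K × (H ≃ₐ[K] H) → InfinitePlace H :=
    fun q => InfinitePlace.mk ((s q.1).comp (q.2 : H →+* H))
  have hinj : Function.Injective E := by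
    rintro ⟨v, g⟩ ⟨v', g'⟩ h
    by_cases hv : v = v'
    · subst hv
      rw [mk_inj (s v) g g' h]
    · exact absurd h (mk_ne (s v) (s v') (by rw [hs, hs]; exact hv) g g')
  have hcard : Fintype.card (InfinitePlace K × (H ≃ₐ[K] H)) = Fintype.card (InfinitePlace H) := by
    have h1 := card_places K
    have h2 := card_places H
    have h3 : Fintype.card (H ≃ₐ[K] H) = finrank K H := by
      rw [← Nat.card_eq_fintype_card, IsGalois.card_aut_eq_finrank]
    have h4 := Module.finrank_mul_finrank ℚ K H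
    rw [Fintype.card_prod, h3]
    rw [← h1, ← h2, mul_assoc] at h4
    omega
  have hbij : Function.Bijective E := (Fintype.bijective_iff_injective_and_card E).2 ⟨hinj, hcard⟩
  have h1 := prod_formula θ x
  rw [← Equiv.sum_comp (Equiv.ofBijective E hbij), Fintype.sum_prod_type] at h1
  have h2 : ∀ (v : InfinitePlace K) (g : H ≃ₐ[K] H),
      lam θ ((Equiv.ofBijective E hbij) (v, g)).embedding x = lam θ (s v) x := by
    intro v g
    have h3 : lam θ ((Equiv.ofBijective E hbij) (v, g)).embedding x =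
        lam θ ((s v).comp (g : H →+* H)) x := by
      refine lam_congr θ _ _ (fun y => ?_) x
      rw [InfinitePlace.norm_embedding_eq]
      rfl
    rw [h3, lam_inChi θ hx]
    simp
  rw [Finset.sum_congr rfl fun v _ => Finset.sum_congr rfl fun g _ => h2 v g] at h1
  simp only [Finset.sum_const, Finset.card_univ, nsmul_eq_mul] at h1
  rw [← Finset.mul_sum] at h1
  rcases mul_eq_zero.1 h1 with h | h
  · exfalso
    rw [Nat.cast_eq_zero] at h
    exact Fintype.card_ne_zero h
  · exact h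

/-- the dimension of the `χ`-part for `χ = 1` -/
theorem dim_one [IsTotallyComplex K] [IsGalois K H] :
    2 * (finrank ℂ_[p] (chiPart p K H 1) + 1) = finrank ℚ K := by
  classical
  obtain ⟨θ⟩ := exists_theta p
  obtain ⟨s, hs⟩ := exists_s K H
  let S : (InfinitePlace K → ℂ_[p]) →ₗ[ℂ_[p]] ℂ_[p] := ∑ v, LinearMap.proj v
  have hS : ∀ y, S y = ∑ v, y v := fun y => by simp [S, LinearMap.sum_apply]
  have hrange : LinearMap.range (Phi (K := K) (H := H) θ 1 s) = LinearMap.ker S := by
    apply le_antisymm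
    · rintro _ ⟨x, rfl⟩
      rw [LinearMap.mem_ker, hS]
      exact sum_lam_one θ s hs x.2
    · intro y hy
      by_contra hne
      obtain ⟨f, hfy, hf⟩ := Submodule.exists_le_ker_of_notMem hne
      apply hfy
      have hc : ∀ v v' : InfinitePlace K, f (Pi.single v 1) = f (Pi.single v' 1) := by
        intro v v'
        have h1 := ann (K := K) (H := H) θ 1 s hs f hf v v' 1 1
        simp only [MonoidHom.one_apply, Units.val_one, mul_one] at h1
        convert h1
      obtain ⟨v0⟩ : Nonempty (InfinitePlace K) := inferInstance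
      have h2 : y = ∑ v, y v • Pi.single v (1 : ℂ_[p]) := by
        funext w
        rw [Finset.sum_apply, Finset.sum_eq_single w]
        · rw [Pi.smul_apply, Pi.single_eq_same, smul_eq_mul, mul_one]
        · intro v _ hv
          rw [Pi.smul_apply, Pi.single_eq_of_ne (Ne.symm hv), smul_zero]
        · intro h
          exact absurd (Finset.mem_univ _) h
      rw [h2, map_sum]
      have h3 : ∀ v, f (y v • Pi.single v (1 : ℂ_[p])) = y v * f (Pi.single v0 1) := by
        intro v
        rw [map_smul, smul_eq_mul, hc v v0]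
      rw [Finset.sum_congr rfl fun v _ => h3 v, ← Finset.sum_mul, ← hS, LinearMap.mem_ker.1 hy,
        zero_mul]
  have hSsurj : LinearMap.range S = ⊤ := by
    rw [LinearMap.range_eq_top]
    intro c
    obtain ⟨v0⟩ : Nonempty (InfinitePlace K) := inferInstance
    refine ⟨Pi.single v0 c, ?_⟩
    rw [hS]
    simp
  have e := (LinearEquiv.ofInjective _ (Phi_inj (K := K) (H := H) θ 1 s hs)).finrank_eq
  rw [hrange] at e
  have h4 := LinearMap.finrank_range_add_finrank_ker S
  rw [hSsurj, finrank_top, Module.finrank_self, Module.finrank_fintype_fun_eq_card] at h4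
  rw [e, ← card_places]
  omega

theorem s_DIM : S_DIM := by
  intro p _ K H _ _ _ _ _ _ _ _ χ
  have : FiniteDimensional K H := FiniteDimensional.right ℚ K H
  by_cases h : χ = 1
  · subst h
    rw [if_pos rfl]
    exact dim_one
  · rw [if_neg h, add_zero]
    exact dim_ne h

end Pool.Agent.L7h10.SA
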