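import Mathlib

set_option autoImplicit false

/-!
# Random partial transversals: expectation, resampling of one coordinate, derivative
-/

namespace Pool.Agent.L7h10.SA

open Finset

variable {ι : Type} [Fintype ι] [DecidableEq ι]

/-- weights of the three states of one pair -/
noncomputable def wt (y : ℝ) : Option Bool → ℝ
  | none => 1 - y
  | some _ => y / 2

/-- derivative of the weights -/
noncomputable def dwt : Option Bool → ℝ
  | none => -1
  | some _ => 1 / 2

/-- product weight -/
noncomputable def Wt (y : ℝ) (x : ι → Option Bool) : ℝ := ∏ i, wt y (x i)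

/-- product weight without the coordinate `i` -/
noncomputable def Pt (y : ℝ) (i : ι) (x : ι → Option Bool) : ℝ := ∏ j ∈ univ.erase i, wt y (x j)

/-- expectation -/
noncomputable def Ex (y : ℝ) (F : (ι → Option Bool) → ℝ) : ℝ := ∑ x, Wt y x * F x

lemma sum_wt (y : ℝ) : ∑ b, wt y b = 1 := by
  rw [Fintype.sum_option, Fintype.sum_bool]
  simp only [wt]
  ring

lemma Wt_eq (y : ℝ) (i : ι) (x : ι → Option Bool) : Wt y x = wt y (x i) * Pt y i x := by
  rw [Wt, Pt, Finset.mul_prod_erase univ (fun j => wt y (x j)) (mem_univ i)]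

lemma Pt_update (y : ℝ) (i : ι) (x : ι → Option Bool) (b : Option Bool) :
    Pt y i (Function.update x i b) = Pt y i x := by
  refine Finset.prod_congr rfl fun j hj => ?_
  rw [Function.update_of_ne (Finset.ne_of_mem_erase hj)]

/-- exchange of the coordinate `i` with an external variable -/
def exch (i : ι) : ((ι → Option Bool) × Option Bool) ≃ ((ι → Option Bool) × Option Bool) where
  toFun q := (Function.update q.1 i q.2, q.1 i)
  invFun q := (Function.update q.1 i q.2, q.1 i)
  left_inv q := by
    ext1
    · simp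
    · simp
  right_inv q := by
    ext1
    · simp
    · simp

lemma swap_sum (y : ℝ) (i : ι) (A : Option Bool → ℝ) (F : (ι → Option Bool) → ℝ) :
    ∑ x, Pt y i x * A (x i) * F x = Ex y (fun x => ∑ b, A b * F (Function.update x i b)) := by
  have h1 : Ex y (fun x => ∑ b, A b * F (Function.update x i b)) =
      ∑ q : (ι → Option Bool) × Option Bool,
        Wt y q.1 * (A q.2 * F (Function.update q.1 i q.2)) := by
    rw [Fintype.sum_prod_type, Ex]
    exact Finset.sum_congr rfl fun x _ => Finset.mul_sum _ _ _
  have h2 : ∑ x, Pt y i x * A (x i) * F x =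
      ∑ q : (ι → Option Bool) × Option Bool, wt y q.2 * (Pt y i q.1 * A (q.1 i) * F q.1) := by
    rw [Fintype.sum_prod_type]
    refine Finset.sum_congr rfl fun x _ => ?_
    have h3 : ∑ b, wt y b * (Pt y i x * A (x i) * F x) = Pt y i x * A (x i) * F x := by
      rw [← Finset.sum_mul, sum_wt, one_mul]
    exact h3.symm
  rw [h1, h2]
  refine Fintype.sum_equiv (exch i) _ _ fun q => ?_
  have e1 : ((exch i) q).1 = Function.update q.1 i q.2 := rfl
  have e2 : ((exch i) q).2 = q.1 i := rfl
  rw [e1, e2, Wt_eq y i, Pt_update, Function.update_self, Function.update_idem,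
    Function.update_eq_self]
  ring

lemma resample (y : ℝ) (i : ι) (F : (ι → Option Bool) → ℝ) :
    Ex y F = Ex y (fun x => ∑ b, wt y b * F (Function.update x i b)) := by
  rw [← swap_sum y i (wt y) F, Ex]
  refine Finset.sum_congr rfl fun x _ => ?_
  rw [Wt_eq y i]
  ring

lemma hasDerivAt_wt (b : Option Bool) (y : ℝ) : HasDerivAt (fun y => wt y b) (dwt b) y := by
  cases b with
  | none => simpa [wt, dwt] using (hasDerivAt_id y).const_sub 1
  | some a => simpa [wt, dwt] using (hasDerivAt_id y).div_const 2

lemma hasDerivAt_Ex (F : (ι → Option Bool) → ℝ) (y : ℝ) :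
    HasDerivAt (fun y => Ex y F)
      (∑ i, Ex y (fun x => ∑ b, dwt b * F (Function.update x i b))) y := by
  have h1 : ∀ x : ι → Option Bool, HasDerivAt (fun y => Wt y x)
      (∑ i, Pt y i x * dwt (x i)) y := by
    intro x
    have := HasDerivAt.fun_finsetProd (u := (univ : Finset ι)) (f := fun i y => wt y (x i))
      (f' := fun i => dwt (x i)) (x := y) (fun i _ => hasDerivAt_wt (x i) y)
    simpa [Wt, Pt, smul_eq_mul] using this
  have h2 : HasDerivAt (fun y => Ex y F) (∑ x, (∑ i, Pt y i x * dwt (x i)) * F x) y := by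
    have := HasDerivAt.fun_sum (u := (univ : Finset (ι → Option Bool)))
      (A := fun x y => Wt y x * F x) (A' := fun x => (∑ i, Pt y i x * dwt (x i)) * F x) (x := y)
      (fun x _ => (h1 x).mul_const (F x))
    exact this
  have h3 : ∑ x, (∑ i, Pt y i x * dwt (x i)) * F x =
      ∑ i, Ex y (fun x => ∑ b, dwt b * F (Function.update x i b)) := by
    simp_rw [Finset.sum_mul]
    rw [Finset.sum_comm]
    exact Finset.sum_congr rfl fun i _ => swap_sum y i dwt F
  rw [← h3]
  exact h2

omit [DecidableEq ι] in
lemma Wt_nonneg {y : ℝ} (h0 : 0 ≤ y) (h1 : y ≤ 1) (x : ι → Option Bool) : 0 ≤ Wt y x := by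
  refine Finset.prod_nonneg fun i _ => ?_
  cases x i with
  | none => simp only [wt]; linarith
  | some a => simp only [wt]; linarith

lemma Ex_mono {y : ℝ} (h0 : 0 ≤ y) (h1 : y ≤ 1) {F G : (ι → Option Bool) → ℝ}
    (h : ∀ x, F x ≤ G x) : Ex y F ≤ Ex y G :=
  Finset.sum_le_sum fun x _ => mul_le_mul_of_nonneg_left (h x) (Wt_nonneg h0 h1 x)

lemma Ex_sum {κ : Type} (s : Finset κ) (y : ℝ) (F : κ → (ι → Option Bool) → ℝ) :
    Ex y (fun x => ∑ j ∈ s, F j x) = ∑ j ∈ s, Ex y (F j) := by
  simp only [Ex, Finset.mul_sum]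
  rw [Finset.sum_comm]

lemma Ex_const_mul (c y : ℝ) (F : (ι → Option Bool) → ℝ) :
    Ex y (fun x => c * F x) = c * Ex y F := by
  simp only [Ex, Finset.mul_sum]
  exact Finset.sum_congr rfl fun x _ => by ring

lemma Ex_zero (F : (ι → Option Bool) → ℝ) : Ex 0 F = F (fun _ => none) := by
  rw [Ex, Finset.sum_eq_single (fun _ => none)]
  · simp [Wt, wt]
  · intro x _ hx
    have : ∃ i, x i ≠ none := by
      by_contra hc
      push Not at hc
      exact hx (funext hc)
    obtain ⟨i, hi⟩ := this
    have : Wt 0 x = 0 := by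
      refine Finset.prod_eq_zero (mem_univ i) ?_
      cases hb : x i with
      | none => exact absurd hb hi
      | some a => simp [wt]
    rw [this, zero_mul]
  · simp

lemma Ex_one (F : (ι → Option Bool) → ℝ) :
    Ex 1 F = (∑ s : ι → Bool, F (fun i => some (s i))) / 2 ^ Fintype.card ι := by
  rw [Ex, Finset.sum_div]
  symm
  refine Finset.sum_bij_ne_zero (fun s _ _ => fun i => some (s i)) (fun _ _ _ => mem_univ _) ?_ ?_ ?_
  · intro s _ _ s' _ _ h
    funext i
    simpa using congrFun h i
  · intro x _ hx
    have hne : ∀ i, x i ≠ none := by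
      intro i hi
      apply hx
      have : Wt 1 x = 0 := by
        refine Finset.prod_eq_zero (mem_univ i) ?_
        rw [hi]
        simp [wt]
      rw [this, zero_mul]
    have hsome : ∀ i, (x i).isSome := fun i => Option.isSome_iff_ne_none.2 (hne i)
    have hxe : (fun i => some ((x i).get (hsome i))) = x := by
      funext i
      simp
    refine ⟨fun i => (x i).get (hsome i), mem_univ _, ?_, hxe⟩
    rw [hxe]
    intro h0
    apply hx
    have hF : F x = 0 := by
      rcases div_eq_zero_iff.1 h0 with h | h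
      · exact h
      · exact absurd h (by positivity)
    rw [hF, mul_zero]
  · intro s _ _
    have : Wt 1 (fun i => some (s i)) = (1 / 2 : ℝ) ^ Fintype.card ι := by
      simp [Wt, wt]
    rw [this, one_div, inv_pow]
    field_simp

end Pool.Agent.L7h10.SA
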