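import Mathlib

set_option autoImplicit false

/-!
# Bounded differences on the cube
-/

namespace Pool.Agent.L7h10.SA

open Finset

/-- a function on the cube changes by at most `1` with one coordinate -/
def Lip {n : ℕ} (f : (Fin n → Bool) → ℝ) : Prop :=
  ∀ s i b, |f s - f (Function.update s i b)| ≤ 1

lemma cons_sum {n : ℕ} (g : (Fin (n + 1) → Bool) → ℝ) :
    ∑ s, g s = ∑ s : Fin n → Bool, (g (Fin.cons true s) + g (Fin.cons false s)) := by
  have h := Fintype.sum_equiv (Fin.consEquiv (fun _ : Fin (n + 1) => Bool))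
    (fun q => g (Fin.cons q.1 q.2)) g (fun q => rfl)
  rw [← h, Fintype.sum_prod_type, Fintype.sum_bool, ← Finset.sum_add_distrib]

lemma mgf (t : ℝ) : ∀ (n : ℕ) (f : (Fin n → Bool) → ℝ), Lip f →
    ∑ s, Real.exp (t * ((∑ s', f s') / 2 ^ n - f s)) ≤ 2 ^ n * Real.exp (t ^ 2 * n / 8) := by
  intro n
  induction n with
  | zero =>
    intro f _
    simp
  | succ n ih =>
    intro f hf
    set g : (Fin n → Bool) → ℝ := fun s => (f (Fin.cons true s) + f (Fin.cons false s)) / 2
      with hg
    have hgl : Lip g := by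
      intro s i b
      have e : ∀ c : Bool, (Fin.cons c (Function.update s i b) : Fin (n + 1) → Bool) =
          Function.update (Fin.cons c s) i.succ b :=
        fun c => Fin.cons_update (α := fun _ => Bool) c s i b
      have h1 := hf (Fin.cons true s) i.succ b
      have h2 := hf (Fin.cons false s) i.succ b
      rw [← e] at h1 h2
      rw [abs_le] at h1 h2 ⊢
      simp only [hg]
      constructor <;> linarith [h1.1, h1.2, h2.1, h2.2]
    have hmean : (∑ s', f s') / 2 ^ (n + 1) = (∑ s', g s') / 2 ^ n := by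
      rw [cons_sum, hg, ← Finset.sum_div, pow_succ]
      field_simp
    rw [hmean, cons_sum]
    have hb : ∀ s : Fin n → Bool,
        Real.exp (t * ((∑ s', g s') / 2 ^ n - f (Fin.cons true s))) +
        Real.exp (t * ((∑ s', g s') / 2 ^ n - f (Fin.cons false s))) ≤
        Real.exp (t * ((∑ s', g s') / 2 ^ n - g s)) * (2 * Real.exp (t ^ 2 / 8)) := by
      intro s
      set μ := (∑ s', g s') / 2 ^ n
      set δ := f (Fin.cons true s) - f (Fin.cons false s) with hδ
      have hδ1 : |δ| ≤ 1 := by
        have := hf (Fin.cons true s) 0 false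
        rwa [Fin.update_cons_zero] at this
      have hcosh : Real.cosh (t * δ / 2) ≤ Real.exp (t ^ 2 / 8) := by
        refine (Real.cosh_le_exp_half_sq _).trans (Real.exp_le_exp.2 ?_)
        have : δ ^ 2 ≤ 1 := by
          rw [← sq_abs]
          exact pow_le_one₀ (abs_nonneg _) hδ1
        nlinarith [sq_nonneg t]
      have e1 : t * (μ - f (Fin.cons true s)) = t * (μ - g s) + -(t * δ / 2) := by
        simp only [hg, hδ]; ring
      have e2 : t * (μ - f (Fin.cons false s)) = t * (μ - g s) + t * δ / 2 := by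
        simp only [hg, hδ]; ring
      rw [e1, e2, Real.exp_add, Real.exp_add, ← mul_add]
      refine mul_le_mul_of_nonneg_left ?_ (Real.exp_nonneg _)
      rw [Real.cosh_eq] at hcosh
      linarith
    refine (Finset.sum_le_sum fun s _ => hb s).trans ?_
    rw [← Finset.sum_mul]
    refine (mul_le_mul_of_nonneg_right (ih g hgl) (by positivity)).trans (le_of_eq ?_)
    have : Real.exp (t ^ 2 * ((n + 1 : ℕ) : ℝ) / 8) =
        Real.exp (t ^ 2 * n / 8) * Real.exp (t ^ 2 / 8) := by
      rw [← Real.exp_add]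
      congr 1
      push_cast
      ring
    rw [this, pow_succ 2 n]
    ring

/-- McDiarmid's inequality on the cube -/
theorem mcd {n : ℕ} (hn : 0 < n) (f : (Fin n → Bool) → ℝ) (hf : Lip f) {t : ℝ} (ht : 0 ≤ t) :
    ((univ.filter (fun s => f s ≤ (∑ s', f s') / 2 ^ n - t)).card : ℝ) ≤
      2 ^ n * Real.exp (-2 * t ^ 2 / n) := by
  set μ := (∑ s', f s') / 2 ^ n with hμ
  set θ := 4 * t / n with hθ
  have hn' : (0 : ℝ) < n := by exact_mod_cast hn
  have hθ0 : 0 ≤ θ := by positivity
  have h1 := mgf θ n f hf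
  rw [← hμ] at h1
  have h2 : ((univ.filter (fun s => f s ≤ μ - t)).card : ℝ) * Real.exp (θ * t) ≤
      ∑ s, Real.exp (θ * (μ - f s)) := by
    rw [← nsmul_eq_mul, ← Finset.sum_const]
    refine (Finset.sum_le_sum fun s hs => ?_).trans
      (Finset.sum_le_sum_of_subset_of_nonneg (Finset.subset_univ _)
        fun s _ _ => (Real.exp_nonneg _))
    rw [mem_filter] at hs
    refine Real.exp_le_exp.2 (mul_le_mul_of_nonneg_left ?_ hθ0)
    linarith [hs.2]
  have h3 : Real.exp (-2 * t ^ 2 / n) = Real.exp (θ ^ 2 * n / 8) * Real.exp (-(θ * t)) := by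
    rw [← Real.exp_add]
    congr 1
    rw [hθ]
    field_simp
    ring
  rw [h3, ← mul_assoc, Real.exp_neg, ← div_eq_mul_inv, le_div_iff₀ (Real.exp_pos _)]
  exact h2.trans h1

end Pool.Agent.L7h10.SA
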