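import Pool.Agent.L7h10.SA.Tot

set_option autoImplicit false
set_option linter.unusedSectionVars false

/-!
# From the exponential mean to the mean
-/

namespace Pool.Agent.L7h10.SA

open Finset

lemma tangent {a b A u : ℝ} (ha : 0 < a) (hb : 0 < b) (hA : 0 < A) :
    A - (a * A + b) * u ≤ Real.exp (-(a * u)) * (A - b * u) := by
  rcases le_or_gt 0 (A - b * u) with h | h
  · have h1 : 1 - a * u ≤ Real.exp (-(a * u)) := by
      have := Real.add_one_le_exp (-(a * u)); linarith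
    have h2 := mul_le_mul_of_nonneg_right h1 h
    nlinarith [mul_nonneg (mul_pos ha hb).le (sq_nonneg u)]
  · have hu : 0 < u := by
      by_contra hc
      push Not at hc
      nlinarith
    have h1 : Real.exp (-(a * u)) ≤ 1 / (1 + a * u) := by
      rw [Real.exp_neg, ← one_div]
      exact one_div_le_one_div_of_le (by positivity) (by
        have := Real.add_one_le_exp (a * u); linarith)
    have h2 : 1 / (1 + a * u) * (A - b * u) ≤ Real.exp (-(a * u)) * (A - b * u) :=
      mul_le_mul_of_nonpos_right h1 h.le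
    refine le_trans ?_ h2
    rw [one_div, inv_mul_eq_div, le_div_iff₀ (by positivity)]
    nlinarith [mul_nonneg (mul_pos ha (add_pos (mul_pos ha hA) hb)).le (sq_nonneg u)]

/-- `log (1 + 3/n)` -/
noncomputable def aa (n : ℕ) : ℝ := -Real.log ((n : ℝ) / (n + 3))

lemma aa_pos {n : ℕ} (hn : 0 < n) : 0 < aa n := by
  rw [aa, neg_pos]
  refine Real.log_neg (by positivity) ?_
  rw [div_lt_one (by positivity)]
  linarith

lemma aa_le {n : ℕ} (hn : 0 < n) : aa n ≤ 3 / n := by
  have hn' : (0 : ℝ) < n := by exact_mod_cast hn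
  rw [aa, ← Real.log_inv, inv_div]
  refine (Real.log_le_sub_one_of_pos (by positivity)).trans (le_of_eq ?_)
  field_simp
  ring

lemma vv_eq {n : ℕ} (hn : 0 < n) (r : ℕ) :
    vv n r = Real.exp (-(aa n * r)) * (1 - 3 / (2 * n) * r) := by
  have : Real.exp (-(aa n * r)) = ((n : ℝ) / (n + 3)) ^ r := by
    rw [aa]
    rw [show -(-Real.log ((n : ℝ) / (n + 3)) * r) = r * Real.log ((n : ℝ) / (n + 3)) by ring,
      Real.exp_nat_mul, Real.exp_log (by positivity)]
  rw [this, vv]
  ring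

lemma vv_ge {n : ℕ} (hn : 0 < n) {x0 A : ℝ} (hA : A = 1 - 3 / (2 * n) * x0) (hA0 : 0 < A)
    (r : ℕ) : Real.exp (-(aa n * x0)) * (A - (aa n * A + 3 / (2 * n)) * (r - x0)) ≤ vv n r := by
  have h := tangent (aa_pos hn) (show (0 : ℝ) < 3 / (2 * n) by positivity) hA0 (u := r - x0)
  have h2 := mul_le_mul_of_nonneg_left h (Real.exp_nonneg (-(aa n * x0)))
  refine h2.trans (le_of_eq ?_)
  rw [← mul_assoc, ← Real.exp_add, vv_eq hn, hA]
  congr 1
  · congr 1; ring
  · ring

/-- the abstract passage to the mean -/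
lemma mean_gt {n : ℕ} (hn : 0 < n) {κ : Type} [Fintype κ] [Nonempty κ] (r : κ → ℕ) {x0 A C : ℝ}
    (hA : A = 1 - 3 / (2 * n) * x0) (hA0 : 0 < A)
    (hS : ∑ s, vv n (r s) ≤ Fintype.card κ * C)
    (hC : C < Real.exp (-(aa n * x0)) * A) :
    x0 * Fintype.card κ < ∑ s, (r s : ℝ) := by
  by_contra hc
  push Not at hc
  have hN : (0 : ℝ) < Fintype.card κ := by exact_mod_cast Fintype.card_pos
  have h1 : ∑ s : κ, Real.exp (-(aa n * x0)) * (A - (aa n * A + 3 / (2 * n)) * (r s - x0)) ≤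
      Fintype.card κ * C := (Finset.sum_le_sum fun s _ => vv_ge hn hA hA0 (r s)).trans hS
  have h2 : ∑ s : κ, Real.exp (-(aa n * x0)) * (A - (aa n * A + 3 / (2 * n)) * (r s - x0)) =
      Real.exp (-(aa n * x0)) * (Fintype.card κ * A - (aa n * A + 3 / (2 * n)) *
        (∑ s, (r s : ℝ) - Fintype.card κ * x0)) := by
    rw [← Finset.mul_sum]
    congr 1
    rw [Finset.sum_sub_distrib, ← Finset.mul_sum, Finset.sum_sub_distrib]
    simp [Finset.sum_const, nsmul_eq_mul]
  rw [h2] at h1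
  have h3 : 0 ≤ (aa n * A + 3 / (2 * n)) * (Fintype.card κ * x0 - ∑ s, (r s : ℝ)) := by
    refine mul_nonneg ?_ (by linarith)
    have := aa_pos hn
    positivity
  have h4 : Real.exp (-(aa n * x0)) * (Fintype.card κ * A) ≤ Fintype.card κ * C := by
    refine le_trans (mul_le_mul_of_nonneg_left ?_ (Real.exp_nonneg _)) h1
    linarith
  nlinarith

lemma exp_const : (71.3 : ℝ) ≤ 512 * Real.exp (-1.971) := by
  have h1 : Real.exp (-1.971) = Real.exp 0.029 * (Real.exp (-1) * Real.exp (-1)) := by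
    rw [← Real.exp_add, ← Real.exp_add]; norm_num
  have h2 : (1.029 : ℝ) ≤ Real.exp 0.029 := by
    have := Real.add_one_le_exp (0.029 : ℝ); linarith
  have h3 : (0.3678794411 : ℝ) ≤ Real.exp (-1) := Real.exp_neg_one_gt_d9.le.trans' (by norm_num)
  have h4 : (0.3678794411 : ℝ) * 0.3678794411 ≤ Real.exp (-1) * Real.exp (-1) :=
    mul_le_mul h3 h3 (by norm_num) (Real.exp_nonneg _)
  have h5 : (1.029 : ℝ) * (0.3678794411 * 0.3678794411) ≤
      Real.exp 0.029 * (Real.exp (-1) * Real.exp (-1)) :=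
    mul_le_mul h2 h4 (by norm_num) (Real.exp_nonneg _)
  rw [h1]
  linarith [h5, show (71.3 : ℝ) ≤ 512 * (1.029 * (0.3678794411 * 0.3678794411)) by norm_num]

/-- auxiliary estimate -/
lemma exp_z {z : ℝ} (hz : z < 16) : Real.exp z ≤ 1 / (1 - z / 16) ^ 16 := by
  have h1 : Real.exp (z / 16) ≤ 1 / (1 - z / 16) := by
    have h2 : 1 - z / 16 ≤ Real.exp (-(z / 16)) := by
      have := Real.add_one_le_exp (-(z / 16)); linarith
    have h3 : 0 < 1 - z / 16 := by linarith
    rw [show Real.exp (z / 16) = 1 / Real.exp (-(z / 16)) by rw [Real.exp_neg]; simp]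
    exact one_div_le_one_div_of_le h3 h2
  have h4 : Real.exp z = Real.exp (z / 16) ^ 16 := by
    rw [← Real.exp_nat_mul]; congr 1; push_cast; ring
  rw [h4, ← one_div_pow]
  exact pow_le_pow_left₀ (Real.exp_nonneg _) h1 16

lemma key_num {n : ℕ} (hn : 0 < n) :
    Real.exp (18.715 / ((n : ℝ) + 3) - 1.5 / n) < 71.3 * (0.0145 + 0.75 / n) := by
  rcases le_or_gt 26 n with h | h
  · have h26 : (26 : ℝ) ≤ n := by exact_mod_cast h
    set t : ℝ := 1 / n with ht
    have ht0 : 0 < t := by positivity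
    have ht1 : t ≤ 1 / 26 := one_div_le_one_div_of_le (by norm_num) h26
    have h1 : (18.715 : ℝ) / ((n : ℝ) + 3) - 1.5 / n ≤ 17.215 * t := by
      have : (18.715 : ℝ) / ((n : ℝ) + 3) ≤ 18.715 / n :=
        div_le_div_of_nonneg_left (by norm_num) (by positivity) (by linarith)
      have e : (17.215 : ℝ) * t = 18.715 / n - 1.5 / n := by rw [ht]; ring
      linarith
    have h2 : Real.exp (17.215 * t) ≤ 1 / (1 - 17.215 * t) := by
      have h3 : 1 - 17.215 * t ≤ Real.exp (-(17.215 * t)) := by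
        have := Real.add_one_le_exp (-(17.215 * t)); linarith
      have h4 : 0 < 1 - 17.215 * t := by linarith
      rw [show Real.exp (17.215 * t) = 1 / Real.exp (-(17.215 * t)) by
        rw [Real.exp_neg]; simp]
      exact one_div_le_one_div_of_le h4 h3
    refine ((Real.exp_le_exp.2 h1).trans h2).trans_lt ?_
    have h5 : (0 : ℝ) < 1 - 17.215 * t := by linarith
    rw [div_lt_iff₀ h5, show (0.75 : ℝ) / n = 0.75 * t by rw [ht]; ring]
    nlinarith
  · interval_cases n <;>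
      refine (exp_z (by norm_num)).trans_lt ?_ <;> norm_num

lemma two_rpow_neg {n : ℕ} (hn : 0 < n) :
    (2 : ℝ) ^ (-(9 * (n : ℝ) / (n + 3))) ≤ Real.exp (18.715 / ((n : ℝ) + 3)) / 512 := by
  rw [Real.rpow_def_of_pos (by norm_num), le_div_iff₀ (by norm_num)]
  have h512 : (512 : ℝ) = Real.exp (9 * Real.log 2) := by
    rw [show (9 : ℝ) * Real.log 2 = ((9 : ℕ) : ℝ) * Real.log 2 by norm_num, Real.exp_nat_mul,
      Real.exp_log (by norm_num)]
    norm_num
  rw [h512, ← Real.exp_add]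
  refine Real.exp_le_exp.2 ?_
  have h1 : Real.log 2 * -(9 * (n : ℝ) / (n + 3)) + 9 * Real.log 2 = 27 * Real.log 2 / (n + 3) := by
    have : (n : ℝ) + 3 ≠ 0 := by positivity
    field_simp
    ring
  rw [h1]
  refine div_le_div_of_nonneg_right ?_ (by positivity)
  have := Real.log_two_lt_d9
  linarith

lemma final_num {n : ℕ} (hn : 0 < n) :
    (2 : ℝ) ^ (-(9 * (n : ℝ) / (n + 3))) <
      Real.exp (-(aa n * (0.657 * n - 1 / 2))) * (0.0145 + 0.75 / n) := by
  have hn' : (1 : ℝ) ≤ n := by exact_mod_cast hn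
  have h0 : (0 : ℝ) ≤ 0.657 * n - 1 / 2 := by linarith
  have h1 : -1.971 + 1.5 / (n : ℝ) ≤ -(aa n * (0.657 * n - 1 / 2)) := by
    have h2 := mul_le_mul_of_nonneg_right (aa_le hn) h0
    have h3 : 3 / (n : ℝ) * (0.657 * n - 1 / 2) = 1.971 - 1.5 / n := by
      field_simp
      ring
    linarith
  have h2 : Real.exp (-1.971) * Real.exp (1.5 / (n : ℝ)) ≤
      Real.exp (-(aa n * (0.657 * n - 1 / 2))) := by
    rw [← Real.exp_add]; exact Real.exp_le_exp.2 h1
  have hB : (0 : ℝ) < 0.0145 + 0.75 / n := by positivity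
  have k := key_num hn
  rw [Real.exp_sub, div_lt_iff₀ (Real.exp_pos _)] at k
  calc (2 : ℝ) ^ (-(9 * (n : ℝ) / (n + 3))) ≤ Real.exp (18.715 / ((n : ℝ) + 3)) / 512 :=
        two_rpow_neg hn
    _ < 71.3 * (0.0145 + 0.75 / n) * Real.exp (1.5 / n) / 512 := by
        exact div_lt_div_of_pos_right k (by norm_num)
    _ ≤ (512 * Real.exp (-1.971)) * (0.0145 + 0.75 / n) * Real.exp (1.5 / n) / 512 := by
        refine div_le_div_of_nonneg_right ?_ (by norm_num)
        refine mul_le_mul_of_nonneg_right ?_ (Real.exp_nonneg _)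
        exact mul_le_mul_of_nonneg_right exp_const hB.le
    _ = Real.exp (-1.971) * Real.exp (1.5 / (n : ℝ)) * (0.0145 + 0.75 / n) := by ring
    _ ≤ _ := mul_le_mul_of_nonneg_right h2 hB.le

/-- the mean is larger than `0.657 n - 1/2` -/
theorem mean_ranks {n : ℕ} (hn : 0 < n) (r : (Fin n → Bool) → ℕ)
    (hS : ∑ s, vv n (r s) ≤ 2 ^ n * (2 : ℝ) ^ (-(9 * (n : ℝ) / (n + 3)))) :
    (0.657 * n - 1 / 2) * 2 ^ n < ∑ s, (r s : ℝ) := by
  have hn' : (0 : ℝ) < n := by exact_mod_cast hn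
  have hcard : (Fintype.card (Fin n → Bool) : ℝ) = 2 ^ n := by simp
  have h := mean_gt hn r (x0 := 0.657 * n - 1 / 2) (A := 0.0145 + 0.75 / n)
    (C := (2 : ℝ) ^ (-(9 * (n : ℝ) / (n + 3)))) (by field_simp; ring) (by positivity)
    (by rw [hcard]; exact hS) (final_num hn)
  rw [hcard] at h
  exact h

end Pool.Agent.L7h10.SA
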