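import Pool.Agent.L7h1.SR.Sub

set_option autoImplicit false
set_option linter.unusedSectionVars false

/-!
# Enumeration of the CM types
-/

namespace Pool.Agent.L7h10.SA

open NumberField Module Pool.Agent.W289.SL
open Pool.Agent.W332.SL6 (exists_ext)

variable {p : ℕ} [Fact p.Prime] {F K : Type} [Field F] [NumberField F] [Field K] [NumberField K]
  [Algebra F K]

/-- the set of embeddings belonging to a choice -/
def typ {n : ℕ} (E : Fin n × Bool ≃ (K →+* ℂ_[p])) (s : Fin n → Bool) : Set (K →+* ℂ_[p]) :=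
  E '' {e | s e.1 = e.2}

lemma typ_inj {n : ℕ} (E : Fin n × Bool ≃ (K →+* ℂ_[p])) : Function.Injective (typ E) := by
  intro s s' h
  have h1 : {e : Fin n × Bool | s e.1 = e.2} = {e | s' e.1 = e.2} := E.injective.image_injective h
  funext i
  have h2 : (i, s i) ∈ {e : Fin n × Bool | s e.1 = e.2} := rfl
  rw [h1] at h2
  exact h2.symm

theorem exists_enum (hFK : finrank F K = 2) :
    ∃ E : Fin (finrank ℚ F) × Bool ≃ (K →+* ℂ_[p]),
      {S : Set (K →+* ℂ_[p]) | IsCMType p F K S} = Set.range (typ E) := by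
  classical
  have : Algebra.IsQuadraticExtension F K := ⟨hFK⟩
  have : FiniteDimensional F K := Module.finite_of_finrank_pos (by omega)
  have : IsGalois F K := inferInstance
  have hcard : Nat.card (K ≃ₐ[F] K) = 2 := by rw [IsGalois.card_aut_eq_finrank, hFK]
  obtain ⟨c, hc1, hcu⟩ := (Nat.card_eq_two_iff' (1 : K ≃ₐ[F] K)).1 hcard
  have hcu' : ∀ τ : K ≃ₐ[F] K, τ ≠ 1 → τ = c := hcu
  have hcc : ∀ k : K, c (c k) = k := by
    intro k
    have h1 : c ^ Nat.card (K ≃ₐ[F] K) = 1 := pow_card_eq_one'
    rw [hcard, pow_two] at h1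
    exact congrArg (fun f : K ≃ₐ[F] K => f k) h1
  have hcc' : ∀ σ : K →+* ℂ_[p], (σ.comp (c : K →+* K)).comp (c : K →+* K) = σ := by
    intro σ
    ext k
    change σ (c (c k)) = σ k
    rw [hcc]
  have hne : ∀ σ : K →+* ℂ_[p], σ.comp (c : K →+* K) ≠ σ := by
    intro σ h
    apply hc1
    ext k
    exact σ.injective (RingHom.congr_fun h k)
  have hcF : Fintype.card (F →+* ℂ_[p]) = finrank ℚ F := NumberField.Embeddings.card F ℂ_[p]
  have hcK : Fintype.card (K →+* ℂ_[p]) = finrank ℚ K := NumberField.Embeddings.card K ℂ_[p]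
  let f : Fin (finrank ℚ F) ≃ (F →+* ℂ_[p]) := (Fintype.equivFinOfCardEq hcF).symm
  have hext : ∀ i, ∃ σ : K →+* ℂ_[p], σ.comp (algebraMap F K) = f i := by
    intro i
    have := (f i).toAlgebra
    exact exists_ext (K := F) (H := K) (f i)
  choose σ hσ using hext
  let E0 : Fin (finrank ℚ F) × Bool → (K →+* ℂ_[p]) :=
    fun q => if q.2 then σ q.1 else (σ q.1).comp (c : K →+* K)
  have hE0F : ∀ q, (E0 q).comp (algebraMap F K) = f q.1 := by
    rintro ⟨i, b⟩
    cases b with
    | true => simpa [E0] using hσ i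
    | false =>
      rw [← hσ i]
      ext k
      change (σ i) (c (algebraMap F K k)) = (σ i) (algebraMap F K k)
      rw [AlgEquiv.commutes]
  have hinj : Function.Injective E0 := by
    rintro ⟨i, b⟩ ⟨j, b'⟩ h
    have h1 : f i = f j := by rw [← hE0F (i, b), ← hE0F (j, b'), h]
    have h2 : i = j := f.injective h1
    subst h2
    cases b <;> cases b'
    · rfl
    · exact absurd h (hne (σ i))
    · exact absurd h.symm (hne (σ i))
    · rfl
  have hcardE : Fintype.card (Fin (finrank ℚ F) × Bool) = Fintype.card (K →+* ℂ_[p]) := by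
    rw [hcK, Fintype.card_prod, Fintype.card_fin, Fintype.card_bool,
      ← Module.finrank_mul_finrank ℚ F K, hFK]
  have hbij : Function.Bijective E0 := (Fintype.bijective_iff_injective_and_card E0).2 ⟨hinj, hcardE⟩
  let E := Equiv.ofBijective E0 hbij
  have hE : ∀ i b, E (i, !b) = (E (i, b)).comp (c : K →+* K) := by
    intro i b
    cases b with
    | true => rfl
    | false => exact (hcc' (σ i)).symm
  refine ⟨E, ?_⟩
  ext S
  constructor
  · intro hS
    have hSc := hS c hc1
    refine ⟨fun i => decide (E (i, true) ∈ S), ?_⟩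
    ext τ
    obtain ⟨⟨i, b⟩, rfl⟩ := E.surjective τ
    have h1 : E (i, b) ∈ typ E (fun i => decide (E (i, true) ∈ S)) ↔
        decide (E (i, true) ∈ S) = b := by
      rw [typ, Function.Injective.mem_set_image E.injective]
      rfl
    rw [h1]
    cases b with
    | true => simp
    | false =>
      have h2 := hSc (E (i, true))
      rw [← hE] at h2
      rw [decide_eq_false_iff_not, h2, not_not]
      rfl
  · rintro ⟨s, rfl⟩ c' hc' τ
    rw [hcu' c' hc']
    obtain ⟨⟨i, b⟩, rfl⟩ := E.surjective τ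
    rw [← hE, typ, Function.Injective.mem_set_image E.injective,
      Function.Injective.mem_set_image E.injective]
    change s i = b ↔ ¬ (s i = !b)
    cases s i <;> cases b <;> simp

end Pool.Agent.L7h10.SA
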