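import Pool.Agent.L7h10.SA.Rk

set_option autoImplicit false
set_option linter.unusedSectionVars false

/-!
# The best transversal (theorem of Rado, with defect)
-/

namespace Pool.Agent.L7h10.SA

open Finset Module Submodule

variable {ι : Type} [Fintype ι] [DecidableEq ι] {k V : Type} [Field k] [AddCommGroup V]
  [Module k V] (w : ι × Bool → V)

/-- available elements over `J` -/
def Av (x : ι → Option Bool) (J : Finset ι) : Set (ι × Bool) :=
  {e | e.1 ∈ J ∧ (x e.1 = none ∨ x e.1 = some e.2)}

variable (k) in
/-- their span -/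
def Uv (x : ι → Option Bool) (J : Finset ι) : Submodule k V := span k (w '' Av x J)

variable (k) in
/-- the condition of Rado -/
def Cond (δ : ℕ) (x : ι → Option Bool) : Prop :=
  ∀ J : Finset ι, J.card ≤ finrank k (Uv k w x J) + δ

lemma Av_notMem (x : ι → Option Bool) (i : ι) (a : Bool) {J : Finset ι} (h : i ∉ J) :
    Av (Function.update x i (some a)) J = Av x J := by
  ext e
  simp only [Av, Set.mem_ofPred_eq]
  by_cases hj : e.1 = i
  · simp [hj, h]
  · simp [Function.update_of_ne hj]

lemma step_rado [FiniteDimensional k V] {δ : ℕ} {x : ι → Option Bool} (h : Cond k w δ x) {i : ι}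
    (hi : x i = none) : ∃ a, Cond k w δ (Function.update x i (some a)) := by
  by_contra hcon
  push Not at hcon
  have h1 := hcon true
  have h2 := hcon false
  unfold Cond at h1 h2
  push Not at h1 h2
  obtain ⟨J1, h1⟩ := h1
  obtain ⟨J2, h2⟩ := h2
  have hi1 : i ∈ J1 := by
    by_contra hh
    have := h J1
    rw [Uv, Av_notMem x i true hh] at h1
    rw [Uv] at this
    omega
  have hi2 : i ∈ J2 := by
    by_contra hh
    have := h J2
    rw [Uv, Av_notMem x i false hh] at h2
    rw [Uv] at this
    omega
  set U1 := Uv k w (Function.update x i (some true)) J1 with hU1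
  set U2 := Uv k w (Function.update x i (some false)) J2 with hU2
  have e1 : Uv k w x (J1 ∪ J2) ≤ U1 ⊔ U2 := by
    rw [Uv, span_le]
    rintro _ ⟨⟨j, b⟩, ⟨hj, hb⟩, rfl⟩
    by_cases hji : j = i
    · subst hji
      cases b with
      | true =>
        refine le_sup_left (a := U1) (subset_span ⟨(j, true), ⟨hi1, Or.inr ?_⟩, rfl⟩)
        simp
      | false =>
        refine le_sup_right (a := U1) (subset_span ⟨(j, false), ⟨hi2, Or.inr ?_⟩, rfl⟩)
        simp
    · rcases Finset.mem_union.1 hj with hj | hj
      · refine le_sup_left (a := U1) (subset_span ⟨(j, b), ⟨hj, ?_⟩, rfl⟩)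
        simpa [Function.update_of_ne hji] using hb
      · refine le_sup_right (a := U1) (subset_span ⟨(j, b), ⟨hj, ?_⟩, rfl⟩)
        simpa [Function.update_of_ne hji] using hb
  have e2 : Uv k w x ((J1 ∩ J2).erase i) ≤ U1 ⊓ U2 := by
    rw [Uv, span_le]
    rintro _ ⟨⟨j, b⟩, ⟨hj, hb⟩, rfl⟩
    have hji : j ≠ i := Finset.ne_of_mem_erase hj
    have hj' := Finset.mem_inter.1 (Finset.mem_of_mem_erase hj)
    refine ⟨subset_span ⟨(j, b), ⟨hj'.1, ?_⟩, rfl⟩, subset_span ⟨(j, b), ⟨hj'.2, ?_⟩, rfl⟩⟩
    · simpa [Function.update_of_ne hji] using hb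
    · simpa [Function.update_of_ne hji] using hb
  have f1 := Submodule.finrank_mono e1
  have f2 := Submodule.finrank_mono e2
  have f3 := Submodule.finrank_sup_add_finrank_inf_eq U1 U2
  have g1 := h (J1 ∪ J2)
  have g2 := h ((J1 ∩ J2).erase i)
  have c1 := Finset.card_union_add_card_inter J1 J2
  have c2 := Finset.card_erase_of_mem (Finset.mem_inter.2 ⟨hi1, hi2⟩)
  have c3 : 0 < (J1 ∩ J2).card := Finset.card_pos.2 ⟨i, Finset.mem_inter.2 ⟨hi1, hi2⟩⟩
  omega

lemma rado_all [FiniteDimensional k V] {δ : ℕ} : ∀ (m : ℕ) (x : ι → Option Bool),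
    (univ.filter (fun i => x i = none)).card = m → Cond k w δ x →
    ∃ s : ι → Bool, Cond k w δ (fun i => some (s i)) := by
  intro m
  induction m with
  | zero =>
    intro x hx h
    rw [Finset.card_eq_zero, Finset.filter_eq_empty_iff] at hx
    have hsome : ∀ i, (x i).isSome := fun i => Option.isSome_iff_ne_none.2 (hx (mem_univ i))
    refine ⟨fun i => (x i).get (hsome i), ?_⟩
    have hxe : (fun i => some ((x i).get (hsome i))) = x := by
      funext i
      simp
    rw [hxe]
    exact h
  | succ m ih =>
    intro x hx h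
    obtain ⟨i, hi⟩ : (univ.filter (fun i => x i = none)).Nonempty := by
      rw [← Finset.card_pos]; omega
    have hi' : x i = none := by simpa using hi
    obtain ⟨a, ha⟩ := step_rado w h hi'
    refine ih _ ?_ ha
    have : univ.filter (fun j => Function.update x i (some a) j = none) =
        (univ.filter (fun j => x j = none)).erase i := by
      ext j
      by_cases hj : j = i
      · subst hj; simp
      · simp [hj]
    rw [this, Finset.card_erase_of_mem hi]
    omega

/-- **the best transversal has rank at least `2/3` of the number of pairs** -/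
theorem best [FiniteDimensional k V] (hW : Wald k w) :
    ∃ s : ι → Bool, 2 * Fintype.card ι ≤ 3 * rk k w (fun i => some (s i)) := by
  have h0 : Cond k w (Fintype.card ι / 3) (fun _ => none) := by
    intro J
    have hT := hW (J ×ˢ (univ : Finset Bool))
    have e1 : Uv k w (fun _ => none) J =
        span k (w '' ((J ×ˢ (univ : Finset Bool) : Finset (ι × Bool)) : Set (ι × Bool))) := by
      rw [Uv]
      congr 2
      ext e
      simp [Av]
    rw [← e1, Finset.card_product, Finset.card_univ, Fintype.card_bool] at hT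
    have hJ : J.card ≤ Fintype.card ι := Finset.card_le_univ J
    set R := finrank k (Uv k w (fun _ => none) J)
    set n := Fintype.card ι
    set j := J.card
    have h3 : 3 * j ≤ 3 * R + n := by
      by_contra hlt
      push Not at hlt
      have a1 : 3 * (j * 2 * n) ≤ 3 * R * (j * 2 + n) := by nlinarith
      have hlt' : (3 : ℤ) * R + n + 1 ≤ 3 * j := by exact_mod_cast hlt
      have a1' : (3 : ℤ) * (j * 2 * n) ≤ 3 * R * (j * 2 + n) := by exact_mod_cast a1
      have hJ' : (j : ℤ) ≤ n := by exact_mod_cast hJ
      have hj0 : (0 : ℤ) ≤ j := by positivity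
      have hn0 : (0 : ℤ) ≤ n := by positivity
      have a2 : (3 : ℤ) * R * (j * 2 + n) ≤ (3 * j - n - 1) * (j * 2 + n) :=
        mul_le_mul_of_nonneg_right (by linarith) (by positivity)
      have a3 : (0 : ℤ) ≤ (6 * j + n) * (n - j) := mul_nonneg (by positivity) (by linarith)
      have hj1 : (1 : ℤ) ≤ j := by
        by_contra hh
        push Not at hh
        have : (j : ℤ) = 0 := by omega
        have hR : (0 : ℤ) ≤ R := by positivity
        linarith
      nlinarith
    omega
  obtain ⟨s, hs⟩ := rado_all w _ _ rfl h0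
  refine ⟨s, ?_⟩
  have h1 := hs univ
  have e2 : Uv k w (fun i => some (s i)) univ = Ux k w (fun i => some (s i)) := by
    rw [Uv, Ux]
    congr 2
    ext e
    simp [Av, Sx]
  rw [e2, Finset.card_univ] at h1
  rw [rk]
  omega

end Pool.Agent.L7h10.SA
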