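import Pool.Agent.L7h10.SA.Defs
import Pool.Agent.L7h10.SA.Pairs
import Pool.Agent.L7h10.SA.Dim
import Pool.Agent.L7h10.SA.Num
import Pool.Agent.L7h10.SA.Mcd
import Pool.Agent.L7h10.SA.Rado

set_option autoImplicit false
set_option linter.unusedSectionVars false

/-!
# The rank of the `p`-adic regulator over almost all CM types
-/

namespace Pool.Agent.L7h10.SA

open NumberField Module Pool.Agent.W289.SL
open Pool.Agent.L7h1.SR (chiPart kerPart row sub ker_add_rank ext_spec)
open Pool.Agent.W332.SL7 (Separates)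


variable {p : ℕ} [Fact p.Prime] {K H : Type} [Field K] [NumberField K] [Field H] [NumberField H]
  [Algebra K H] [FiniteDimensional K H] [IsGalois K H] (χ : (H ≃ₐ[K] H) →* ℂ_[p]ˣ)
  {L : ℂ_[p] → ℂ_[p]} (hL : IsIwasawaLog p L)

lemma eig_eq : eig (galAct (K := K) (H := H) p) (fun τ => (χ τ : ℂ_[p])) = chiPart p K H χ := by
  ext x
  rw [eig, Submodule.mem_iInf]
  refine forall_congr' fun τ => ?_
  rw [LinearMap.mem_ker, LinearMap.sub_apply, sub_eq_zero]
  rfl

lemma chiDim_eq : chiDim χ = finrank ℂ_[p] (chiPart p K H χ) := by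
  rw [chiDim, eigDim, eig_eq]

lemma sep_of (hsep : Separating χ) : Separates p K H Set.univ χ := by
  intro σ σ' _ _ hne
  obtain ⟨a, ha⟩ : ∃ a : K, σ (algebraMap K H a) ≠ σ' (algebraMap K H a) := by
    by_contra hc
    push Not at hc
    exact hne (RingHom.ext hc)
  obtain ⟨g, h, h', h1, h2, h3⟩ := hsep σ σ' ⟨a, ha⟩
  exact ⟨g, h, h', RingHom.ext h1, RingHom.ext h2, h3⟩

lemma rankLog_eq (S : Set (K →+* ℂ_[p])) :
    rankLog χ hL S = finrank ℂ_[p] (Submodule.span ℂ_[p] (row (H := H) χ hL '' S)) := by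
  have h1 := ker_add_rank (H := H) χ hL S
  let f : UM p H →ₗ[ℂ_[p]] ({σ : H →+* ℂ_[p] | σ.comp (algebraMap K H) ∈ S} → ℂ_[p]) :=
    LinearMap.pi fun σ => logLin hL σ.1
  let g := f.comp (chiPart p K H χ).subtype
  have h2 := LinearMap.finrank_range_add_finrank_ker g
  have h6 : LinearMap.range g = (chiPart p K H χ).map f := by
    rw [LinearMap.range_comp, Submodule.range_subtype]
  have h3 : finrank ℂ_[p] (LinearMap.ker g) = finrank ℂ_[p] (kerPart (H := H) χ hL S) := by
    have h4 : (kerPart (H := H) χ hL S).comap (chiPart p K H χ).subtype = LinearMap.ker g := by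
      ext x
      rw [Submodule.mem_comap, LinearMap.mem_ker]
      constructor
      · intro hx
        funext σ
        exact hx.2 σ.1 σ.2
      · intro hx
        exact ⟨x.2, fun σ hσ => congrFun hx ⟨σ, hσ⟩⟩
    have h5 : ((kerPart (H := H) χ hL S).comap (chiPart p K H χ).subtype).map
        (chiPart p K H χ).subtype = kerPart (H := H) χ hL S := by
      rw [Submodule.map_comap_subtype]
      exact inf_eq_right.2 fun x hx => hx.1
    rw [← h4]
    conv_rhs => rw [← h5]
    exact LinearEquiv.finrank_eq (Submodule.equivMapOfInjective _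
      (Submodule.injective_subtype _) _)
  rw [rankLog, eigRank, eig_eq]
  rw [h6] at h2
  change finrank ℂ_[p] ((chiPart p K H χ).map f) = _
  omega

section abs

variable {n : ℕ} (E : Fin n × Bool ≃ (K →+* ℂ_[p]))

/-- the vectors -/
noncomputable def vec (e : Fin n × Bool) : chiPart p K H χ →ₗ[ℂ_[p]] ℂ_[p] := row (H := H) χ hL (E e)

lemma vec_image (A : Set (Fin n × Bool)) :
    vec (H := H) χ hL E '' A = row (H := H) χ hL '' (E '' A) := by
  rw [Set.image_image]; rfl

lemma rk_typ (s : Fin n → Bool) :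
    rk ℂ_[p] (vec (H := H) χ hL E) (fun i => some (s i)) = rankLog χ hL (typ E s) := by
  have h : Sx (fun i => some (s i)) = {e : Fin n × Bool | s e.1 = e.2} := by
    ext e
    simp [Sx]
  rw [rankLog_eq, rk, Ux, vec_image, typ, h]

lemma wald (hn : finrank ℂ_[p] (chiPart p K H χ) = n)
    (hsep : Separates p K H Set.univ χ) : Wald ℂ_[p] (vec (H := H) χ hL E) := by
  intro T
  have h1 := sub χ (T.map E.toEmbedding) (fun σ σ' _ _ h => hsep σ σ' trivial trivial h) hL
  rw [Finset.card_map, hn, Finset.coe_map] at h1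
  rw [vec_image, Fintype.card_fin]
  exact h1

lemma lip : Lip (fun s : Fin n → Bool =>
    (rk ℂ_[p] (vec (H := H) χ hL E) (fun i => some (s i)) : ℝ)) := by
  intro s i b
  set w := vec (H := H) χ hL E
  have e1 : (fun j => some (s j)) =
      Function.update (fun j => some (s j)) i (some (s i)) := by simp
  have e2 : (fun j => some (Function.update s i b j)) =
      Function.update (fun j => some (s j)) i (some b) := by
    funext j
    by_cases hj : j = i
    · subst hj; simp
    · simp [Function.update_of_ne hj]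
  have key : ∀ a, rk ℂ_[p] w (Function.update (fun j => some (s j)) i (some a)) =
      rk ℂ_[p] w (Function.update (fun j => some (s j)) i none) ∨
      rk ℂ_[p] w (Function.update (fun j => some (s j)) i (some a)) =
      rk ℂ_[p] w (Function.update (fun j => some (s j)) i none) + 1 := by
    intro a
    by_cases h : w (i, a) ∈ Ux ℂ_[p] w (Function.update (fun j => some (s j)) i none)
    · exact Or.inl (rk_in w _ i a h)
    · exact Or.inr (rk_out w _ i a h)
  show |((rk ℂ_[p] w (fun j => some (s j)) : ℕ) : ℝ) -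
    (rk ℂ_[p] w (fun j => some (Function.update s i b j)) : ℕ)| ≤ 1
  rw [e2]
  conv_lhs => rw [e1]
  simp only [Function.update_idem]
  rcases key (s i) with h | h <;> rcases key b with h' | h' <;> rw [h, h'] <;> simp

end abs

theorem main (F : Type) [Field F] [NumberField F] [Algebra F K] [IsTotallyComplex K]
    (hFK : finrank F K = 2) (hsep0 : Separating χ) :
    chiDim χ = finrank ℚ F ∧
      Ranks (finrank ℚ F) {S | IsCMType p F K S} (rankLog χ hL) := by
  classical
  have hsep := sep_of χ hsep0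
  set d := finrank ℚ F with hd
  have hd0 : 0 < d := Module.finrank_pos
  have hK2 : finrank ℚ K = 2 * d := by
    rw [← Module.finrank_mul_finrank ℚ F K, hFK, hd, mul_comm]
  -- the character is not trivial
  have hχ : χ ≠ 1 := by
    rintro rfl
    have hc : 1 < Fintype.card (K →+* ℂ_[p]) := by
      rw [NumberField.Embeddings.card K ℂ_[p], hK2]; omega
    obtain ⟨τ, τ', hne⟩ := Fintype.one_lt_card_iff.1 hc
    obtain ⟨σ, hσ⟩ := Pool.Agent.W332.SL6.exists_ext (H := H) τ
    obtain ⟨σ', hσ'⟩ := Pool.Agent.W332.SL6.exists_ext (H := H) τ'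
    obtain ⟨g, h, h', -, -, h3⟩ := hsep σ σ' trivial trivial (by rw [hσ, hσ']; exact hne)
    exact h3 rfl
  have hdim : finrank ℂ_[p] (chiPart p K H χ) = d := by
    have := dim_ne (p := p) (K := K) (H := H) hχ
    omega
  obtain ⟨E, hE⟩ := exists_enum (p := p) (F := F) (K := K) hFK
  have hW := wald χ hL E hdim hsep
  have hcard : Fintype.card (Fin d) = d := Fintype.card_fin d
  have hinj := typ_inj (p := p) (K := K) E
  have hnc : ∀ P : Set (K →+* ℂ_[p]) → Prop,
      {S : Set (K →+* ℂ_[p]) | IsCMType p F K S ∧ P S}.ncard =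
        (Finset.univ.filter (fun s : Fin d → Bool => P (typ E s))).card := by
    intro P
    have h1 : {S : Set (K →+* ℂ_[p]) | IsCMType p F K S ∧ P S} =
        typ E '' {s : Fin d → Bool | P (typ E s)} := by
      ext S
      constructor
      · rintro ⟨hS, hP⟩
        have hS' : S ∈ {S : Set (K →+* ℂ_[p]) | IsCMType p F K S} := hS
        rw [hE] at hS'
        obtain ⟨s, rfl⟩ := hS'
        exact ⟨s, hP, rfl⟩
      · rintro ⟨s, hs, rfl⟩
        have hS' : typ E s ∈ {S : Set (K →+* ℂ_[p]) | IsCMType p F K S} := by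
          rw [hE]; exact ⟨s, rfl⟩
        exact ⟨hS', hs⟩
    rw [h1, Set.ncard_image_of_injective _ hinj, Set.ncard_eq_toFinset_card']
    congr 1
    ext s
    simp only [Set.mem_toFinset, Finset.mem_filter, Finset.mem_univ, true_and]
    exact Iff.rfl
  have hfs : ∀ f : Set (K →+* ℂ_[p]) → ℝ,
      ∑ᶠ S ∈ {S : Set (K →+* ℂ_[p]) | IsCMType p F K S}, f S = ∑ s : Fin d → Bool, f (typ E s) := by
    intro f
    rw [hE, finsum_mem_range hinj, finsum_eq_sum_of_fintype]
  have hrk : ∀ s : Fin d → Bool, rk ℂ_[p] (vec (H := H) χ hL E) (fun i => some (s i)) =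
      rankLog χ hL (typ E s) := rk_typ χ hL E
  have : Nonempty (Fin d) := ⟨⟨0, hd0⟩⟩
  have htot := total_vv hW
  rw [hcard] at htot
  simp only [hrk] at htot
  have hmean := mean_ranks hd0 (fun s => rankLog χ hL (typ E s)) htot
  refine ⟨(chiDim_eq χ).trans hdim, ?_, ?_, ?_, ?_, ?_⟩
  · have h1 := hnc (fun _ => True)
    simp only [and_true, Finset.filter_true, Finset.card_univ] at h1
    rw [h1, Fintype.card_fun, Fintype.card_bool, hcard]
  · obtain ⟨s, hs⟩ := best _ hW
    rw [hcard, hrk] at hs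
    refine ⟨typ E s, ?_, hs⟩
    have hS' : typ E s ∈ {S : Set (K →+* ℂ_[p]) | IsCMType p F K S} := by
      rw [hE]; exact ⟨s, rfl⟩
    exact hS'
  · rw [hfs]
    exact htot
  · rw [hfs]
    exact hmean
  · intro ε hε
    have hnc' := hnc (fun S => (rankLog χ hL S : ℝ) ≤ (0.657 - ε) * d - 1 / 2)
    have hset : {S ∈ {S : Set (K →+* ℂ_[p]) | IsCMType p F K S} |
        (rankLog χ hL S : ℝ) ≤ (0.657 - ε) * d - 1 / 2} =
        {S | IsCMType p F K S ∧ (rankLog χ hL S : ℝ) ≤ (0.657 - ε) * d - 1 / 2} := rfl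
    rw [hset, hnc']
    have hlip := lip χ hL E
    have hm := mcd hd0 _ hlip (t := ε * d) (by positivity)
    simp only [hrk] at hm
    have h1 : (2 : ℝ) ^ d * Real.exp (-2 * (ε * d) ^ 2 / d) =
        2 ^ d * Real.exp (-2 * ε ^ 2 * d) := by
      congr 2
      have : (d : ℝ) ≠ 0 := by positivity
      field_simp
    rw [h1] at hm
    refine le_trans ?_ hm
    rw [Nat.cast_le]
    refine Finset.card_le_card fun s hs => ?_
    rw [Finset.mem_filter] at hs ⊢
    refine ⟨hs.1, hs.2.trans ?_⟩
    have h2 : 0.657 * (d : ℝ) - 1 / 2 ≤ (∑ s, (rankLog χ hL (typ E s) : ℝ)) / 2 ^ d := by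
      rw [le_div_iff₀ (by positivity)]
      exact hmean.le
    linarith

end Pool.Agent.L7h10.SA
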