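import Pool.Agent.L7h10.SA.Exp

set_option autoImplicit false
set_option linter.unusedSectionVars false

/-!
# The rank of a random partial transversal: the differential inequality
-/

namespace Pool.Agent.L7h10.SA

open Finset Module Submodule

variable {ι : Type} [Fintype ι] [DecidableEq ι] {k V : Type} [Field k] [AddCommGroup V]
  [Module k V]

/-- the elements of the partial transversal `x` -/
def Sx (x : ι → Option Bool) : Set (ι × Bool) := {e | x e.1 = some e.2}

variable (k) in
/-- span of the vectors of the partial transversal -/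
def Ux (w : ι × Bool → V) (x : ι → Option Bool) : Submodule k V := span k (w '' Sx x)

variable (k) in
/-- rank of the partial transversal -/
noncomputable def rk (w : ι × Bool → V) (x : ι → Option Bool) : ℕ := finrank k (Ux k w x)

variable (k) in
open Classical in
/-- `1` if the vector of `e` is outside of the span -/
noncomputable def ou (w : ι × Bool → V) (x : ι → Option Bool) (e : ι × Bool) : ℝ :=
  if w e ∈ Ux k w x then 0 else 1

variable (w : ι × Bool → V)

lemma ou_nonneg (x : ι → Option Bool) (e : ι × Bool) : 0 ≤ ou k w x e := by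
  unfold ou; split_ifs <;> norm_num

lemma ou_anti {x x' : ι → Option Bool} (h : Ux k w x ≤ Ux k w x') (e : ι × Bool) :
    ou k w x' e ≤ ou k w x e := by
  unfold ou
  split_ifs with h1 h2 h2 <;> norm_num
  exact h1 (h h2)

lemma Sx_update (x : ι → Option Bool) (i : ι) (a : Bool) :
    Sx (Function.update x i (some a)) = insert (i, a) (Sx (Function.update x i none)) := by
  ext e
  obtain ⟨j, b⟩ := e
  simp only [Sx, Set.mem_ofPred_eq, Set.mem_insert_iff, Prod.mk.injEq]
  by_cases hj : j = i
  · subst hj
    simp only [Function.update_self, Option.some.injEq, true_and, reduceCtorEq, or_false]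
    exact eq_comm
  · simp [hj]

lemma Ux_update (x : ι → Option Bool) (i : ι) (a : Bool) :
    Ux k w (Function.update x i (some a)) =
      Ux k w (Function.update x i none) ⊔ span k {w (i, a)} := by
  rw [Ux, Ux, Sx_update, Set.image_insert_eq, span_insert, sup_comm]

lemma Ux_le_update (x : ι → Option Bool) (i : ι) (a : Bool) :
    Ux k w (Function.update x i none) ≤ Ux k w (Function.update x i (some a)) := by
  rw [Ux_update]; exact le_sup_left

lemma mem_Ux_update (x : ι → Option Bool) (i : ι) (a : Bool) :
    w (i, a) ∈ Ux k w (Function.update x i (some a)) := by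
  rw [Ux_update]
  exact le_sup_right (a := Ux k w (Function.update x i none)) (subset_span rfl)

lemma rk_in [FiniteDimensional k V] (x : ι → Option Bool) (i : ι) (a : Bool)
    (h : w (i, a) ∈ Ux k w (Function.update x i none)) :
    rk k w (Function.update x i (some a)) = rk k w (Function.update x i none) := by
  have : Ux k w (Function.update x i (some a)) = Ux k w (Function.update x i none) := by
    rw [Ux_update]
    exact sup_eq_left.2 (span_le.2 (Set.singleton_subset_iff.2 h))
  rw [rk, rk, this]

lemma rk_out [FiniteDimensional k V] (x : ι → Option Bool) (i : ι) (a : Bool)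
    (h : w (i, a) ∉ Ux k w (Function.update x i none)) :
    rk k w (Function.update x i (some a)) = rk k w (Function.update x i none) + 1 := by
  rw [rk, rk, Ux_update, finrank_sup_span_singleton h]

lemma Sx_finite (x : ι → Option Bool) : (Sx x).Finite := Set.toFinite _

lemma rk_le (x : ι → Option Bool) : rk k w x ≤ Fintype.card ι := by
  classical
  have h1 : Sx x ⊆ Set.range (fun i : ι => ((i, (x i).getD true) : ι × Bool)) := by
    rintro ⟨i, a⟩ h
    refine ⟨i, ?_⟩
    have h' : x i = some a := h
    simp [h']
  have h2 : Ux k w x ≤ span k (Set.range (fun i : ι => w (i, (x i).getD true))) := by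
    refine span_mono ?_
    rintro _ ⟨e, he, rfl⟩
    obtain ⟨i, hi⟩ := h1 he
    exact ⟨i, by rw [← hi]⟩
  have : FiniteDimensional k (span k (Set.range (fun i : ι => w (i, (x i).getD true)))) :=
    FiniteDimensional.span_of_finite k (Set.finite_range _)
  exact (Submodule.finrank_mono h2).trans (finrank_range_le_card _)

/-- the lower bound for the ranks of all sets -/
def Wald (k : Type) [Field k] {V : Type} [AddCommGroup V] [Module k V] (w : ι × Bool → V) : Prop :=
  ∀ T : Finset (ι × Bool),
    T.card * Fintype.card ι ≤ finrank k (span k (w '' (T : Set (ι × Bool)))) *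
      (T.card + Fintype.card ι)

/-- number of elements outside of the closure -/
lemma count (hW : Wald k w) (x : ι → Option Bool) :
    (Fintype.card ι : ℝ) * (2 * Fintype.card ι - 3 * rk k w x) ≤
      (Fintype.card ι - rk k w x : ℝ) * ∑ i, ∑ a, ou k w x (i, a) := by
  classical
  set T : Finset (ι × Bool) := univ.filter (fun e => w e ∈ Ux k w x) with hT
  have hspan : span k (w '' (T : Set (ι × Bool))) = Ux k w x := by
    apply le_antisymm
    · rw [span_le]
      rintro _ ⟨e, he, rfl⟩
      have : e ∈ T := he
      rw [hT, mem_filter] at this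
      exact this.2
    · refine span_mono (Set.image_mono ?_)
      intro e he
      show e ∈ T
      rw [hT, mem_filter]
      exact ⟨mem_univ _, subset_span ⟨e, he, rfl⟩⟩
  have h1 := hW T
  rw [hspan] at h1
  have h1' : (T.card : ℝ) * Fintype.card ι ≤ rk k w x * (T.card + Fintype.card ι) := by
    exact_mod_cast h1
  have h2 : ∑ i, ∑ a, ou k w x (i, a) = 2 * Fintype.card ι - T.card := by
    have e1 : ∑ i, ∑ a, ou k w x (i, a) = ∑ e : ι × Bool, ou k w x e :=
      (Fintype.sum_prod_type _).symm
    have e2 : ∑ e : ι × Bool, ou k w x e =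
        ∑ e : ι × Bool, ((1 : ℝ) - if w e ∈ Ux k w x then 1 else 0) := by
      refine Finset.sum_congr rfl fun e _ => ?_
      unfold ou
      split_ifs <;> norm_num
    rw [e1, e2, Finset.sum_sub_distrib, Finset.sum_boole]
    simp only [sum_const, card_univ, Fintype.card_prod, Fintype.card_bool, nsmul_eq_mul, mul_one,
      Nat.cast_mul, Nat.cast_ofNat, hT]
    ring
  rw [h2]
  nlinarith [h1']

/-- an admissible sequence: `v` has decrements `h ≥ 0` which decrease up to `n`, and
`λ v(r) (n - r) ≤ n (2 n - 3 r) h(r)` -/
structure Adm (n : ℕ) (lam : ℝ) (v : ℕ → ℝ) : Prop where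
  nonneg : ∀ r, r ≤ n → 0 ≤ v r - v (r + 1)
  anti : ∀ r, r + 1 ≤ n → v (r + 1) - v (r + 2) ≤ v r - v (r + 1)
  key : ∀ r, r ≤ n → ∀ m : ℝ, 0 ≤ m → (n : ℝ) * (2 * n - 3 * r) ≤ (n - r) * m →
    lam * v r ≤ (v r - v (r + 1)) * m

variable {w}

lemma step_i [FiniteDimensional k V] {lam : ℝ} {v : ℕ → ℝ} (hv : Adm (Fintype.card ι) lam v)
    {y : ℝ} (h0 : 0 ≤ y) (h1 : y ≤ 1) (x : ι → Option Bool) (i : ι) :
    ∑ b, wt y b * ((v (rk k w (Function.update x i b)) - v (rk k w (Function.update x i b) + 1)) *
      ∑ a, ou k w (Function.update x i b) (i, a)) ≤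
    -(2 - y) * ∑ b, dwt b * v (rk k w (Function.update x i b)) := by
  set x0 := Function.update x i none with hx0
  have hr : ∀ a, rk k w (Function.update x i (some a)) ≤ Fintype.card ι := fun a => rk_le w _
  have hr0 : rk k w x0 ≤ Fintype.card ι := rk_le w _
  set h : ℝ := v (rk k w x0) - v (rk k w x0 + 1) with hh
  have hh0 : 0 ≤ h := hv.nonneg _ hr0
  have hF : ∀ a, v (rk k w x0) - v (rk k w (Function.update x i (some a))) =
      h * ou k w x0 (i, a) := by
    intro a
    by_cases hin : w (i, a) ∈ Ux k w x0
    · have e : ou k w x0 (i, a) = 0 := if_pos hin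
      rw [rk_in w x i a hin, e, mul_zero, sub_self]
    · have e : ou k w x0 (i, a) = 1 := if_neg hin
      rw [rk_out w x i a hin, e, mul_one]
  have hha : ∀ a, 0 ≤ v (rk k w (Function.update x i (some a))) -
      v (rk k w (Function.update x i (some a)) + 1) ∧
      v (rk k w (Function.update x i (some a))) -
      v (rk k w (Function.update x i (some a)) + 1) ≤ h := by
    intro a
    refine ⟨hv.nonneg _ (hr a), ?_⟩
    by_cases hin : w (i, a) ∈ Ux k w x0
    · rw [rk_in w x i a hin]
    · rw [rk_out w x i a hin]
      refine hv.anti _ ?_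
      rw [← rk_out w x i a hin]
      exact hr a
  have hou : ∀ a b, ou k w (Function.update x i (some a)) (i, b) ≤ ou k w x0 (i, b) :=
    fun a b => ou_anti w (Ux_le_update w x i a) _
  have hou0 : ∀ a, ou k w (Function.update x i (some a)) (i, a) = 0 := by
    intro a
    simp [ou, mem_Ux_update w x i a]
  rw [Fintype.sum_option, Fintype.sum_option, Fintype.sum_bool, Fintype.sum_bool]
  simp only [Fintype.sum_bool, wt, dwt]
  have ht := hF true
  have hf := hF false
  have A1 : (v (rk k w (Function.update x i (some true))) -
      v (rk k w (Function.update x i (some true)) + 1)) *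
      (ou k w (Function.update x i (some true)) (i, true) +
        ou k w (Function.update x i (some true)) (i, false)) ≤ h * ou k w x0 (i, false) := by
    rw [hou0 true, zero_add]
    exact mul_le_mul (hha true).2 (hou true false) (ou_nonneg w _ _) hh0
  have A2 : (v (rk k w (Function.update x i (some false))) -
      v (rk k w (Function.update x i (some false)) + 1)) *
      (ou k w (Function.update x i (some false)) (i, true) +
        ou k w (Function.update x i (some false)) (i, false)) ≤ h * ou k w x0 (i, true) := by
    rw [hou0 false, add_zero]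
    exact mul_le_mul (hha false).2 (hou false true) (ou_nonneg w _ _) hh0
  have B1 := mul_le_mul_of_nonneg_left A1 (by linarith : (0:ℝ) ≤ y / 2)
  have B2 := mul_le_mul_of_nonneg_left A2 (by linarith : (0:ℝ) ≤ y / 2)
  have E1 : v (rk k w (Function.update x i (some true))) =
    v (rk k w x0) - h * ou k w x0 (i, true) := by linarith
  have E2 : v (rk k w (Function.update x i (some false))) =
    v (rk k w x0) - h * ou k w x0 (i, false) := by linarith
  have R : -(2 - y) * (-1 * v (rk k w x0) + (1 / 2 * v (rk k w (Function.update x i (some true))) +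
      1 / 2 * v (rk k w (Function.update x i (some false))))) =
      (1 - y) * (h * (ou k w x0 (i, true) + ou k w x0 (i, false))) +
        (y / 2 * (h * ou k w x0 (i, false)) + y / 2 * (h * ou k w x0 (i, true))) := by
    rw [E1, E2]; ring
  rw [R]
  have := add_le_add B1 B2
  linarith

theorem main_ineq [FiniteDimensional k V] {lam : ℝ} {v : ℕ → ℝ}
    (hv : Adm (Fintype.card ι) lam v) (hW : Wald k w) {y : ℝ} (h0 : 0 ≤ y) (h1 : y ≤ 1) :
    lam * Ex y (fun x => v (rk k w x)) + (2 - y) *
      ∑ i : ι, Ex y (fun x => ∑ b, dwt b * v (rk k w (Function.update x i b))) ≤ 0 := by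
  have s1 : lam * Ex y (fun x => v (rk k w x)) ≤
      Ex y (fun x => ∑ i : ι, (v (rk k w x) - v (rk k w x + 1)) * ∑ a, ou k w x (i, a)) := by
    rw [← Ex_const_mul]
    refine Ex_mono h0 h1 fun x => ?_
    rw [← Finset.mul_sum]
    refine hv.key _ (rk_le w x) _ ?_ (count w hW x)
    exact Finset.sum_nonneg fun i _ => Finset.sum_nonneg fun a _ => ou_nonneg w _ _
  have s2 : Ex y (fun x => ∑ i : ι, (v (rk k w x) - v (rk k w x + 1)) * ∑ a, ou k w x (i, a)) ≤
      ∑ i : ι, -(2 - y) * Ex y (fun x => ∑ b, dwt b * v (rk k w (Function.update x i b))) := by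
    rw [Ex_sum]
    refine Finset.sum_le_sum fun i _ => ?_
    rw [resample y i, ← Ex_const_mul]
    exact Ex_mono h0 h1 fun x => step_i hv h0 h1 x i
  rw [← Finset.mul_sum] at s2
  linarith

end Pool.Agent.L7h10.SA
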