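import Pool.Agent.L7h10.SA.Rk

set_option autoImplicit false
set_option linter.unusedSectionVars false

/-!
# Integration of the differential inequality; the admissible sequence
-/

namespace Pool.Agent.L7h10.SA

open Finset Module Submodule

variable {ι : Type} [Fintype ι] [DecidableEq ι] {k V : Type} [Field k] [AddCommGroup V]
  [Module k V]

lemma rk_none (w : ι × Bool → V) : rk k w (fun _ => none) = 0 := by
  have : Sx (fun _ : ι => (none : Option Bool)) = ∅ := by
    ext e
    simp [Sx]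
  rw [rk, Ux, this, Set.image_empty, span_empty, finrank_bot]

theorem total [FiniteDimensional k V] {w : ι × Bool → V} {lam : ℝ} {v : ℕ → ℝ}
    (hv : Adm (Fintype.card ι) lam v) (hW : Wald k w) :
    ∑ s : ι → Bool, v (rk k w (fun i => some (s i))) ≤
      2 ^ Fintype.card ι * ((2 : ℝ) ^ (-lam) * v 0) := by
  set F : (ι → Option Bool) → ℝ := fun x => v (rk k w x) with hF
  set G' : ℝ → ℝ := fun y => ∑ i : ι, Ex y (fun x => ∑ b, dwt b * F (Function.update x i b))
  have hd : ∀ y : ℝ, y < 2 → HasDerivAt (fun y => (2 - y) ^ (-lam) * Ex y F)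
      ((2 - y) ^ (-lam - 1) * (lam * Ex y F + (2 - y) * G' y)) y := by
    intro y hy
    have h1 : HasDerivAt (fun y : ℝ => (2 - y) ^ (-lam)) (-1 * (-lam) * (2 - y) ^ (-lam - 1)) y :=
      HasDerivAt.rpow_const (by simpa using (hasDerivAt_id y).const_sub 2) (Or.inl (by linarith))
    have h2 := h1.mul (hasDerivAt_Ex F y)
    refine h2.congr_deriv ?_
    have h3 : (2 - y) ^ (-lam) = (2 - y) ^ (-lam - 1) * (2 - y) := by
      rw [← Real.rpow_add_one (by linarith)]
      congr 1
      ring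
    rw [h3]
    ring
  have hanti : AntitoneOn (fun y => (2 - y) ^ (-lam) * Ex y F) (Set.Icc 0 1) := by
    refine antitoneOn_of_deriv_nonpos (convex_Icc 0 1) ?_ ?_ ?_
    · exact fun y hy => (hd y (by linarith [hy.2])).continuousAt.continuousWithinAt
    · exact fun y hy => (hd y (by
        rw [interior_Icc] at hy; linarith [hy.2])).differentiableAt.differentiableWithinAt
    · intro y hy
      rw [interior_Icc] at hy
      rw [(hd y (by linarith [hy.2])).deriv]
      refine mul_nonpos_of_nonneg_of_nonpos (Real.rpow_nonneg (by linarith [hy.2]) _) ?_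
      exact main_ineq hv hW hy.1.le hy.2.le
  have h01 := hanti (Set.left_mem_Icc.2 zero_le_one) (Set.right_mem_Icc.2 zero_le_one) zero_le_one
  simp only [sub_zero] at h01
  rw [show (2 : ℝ) - 1 = 1 by norm_num, Real.one_rpow, one_mul, Ex_one, Ex_zero] at h01
  rw [div_le_iff₀ (by positivity)] at h01
  rw [hF] at h01
  simp only [rk_none] at h01
  linarith

/-- the sequence `(n/(n+3))^r (1 - 3 r/(2 n))` -/
noncomputable def vv (n : ℕ) (r : ℕ) : ℝ := ((n : ℝ) / (n + 3)) ^ r * (1 - 3 * r / (2 * n))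

lemma vv_sub {n : ℕ} (hn : 0 < n) (r : ℕ) :
    vv n r - vv n (r + 1) =
      (9 * n / (n + 3)) * (((n : ℝ) / (n + 3)) ^ r * ((n - r) / (2 * n ^ 2))) := by
  have h1 : (n : ℝ) ≠ 0 := by positivity
  have h2 : (n : ℝ) + 3 ≠ 0 := by positivity
  rw [vv, vv, pow_succ, Nat.cast_add, Nat.cast_one]
  have : (1 : ℝ) - 3 * r / (2 * n) - (n : ℝ) / (n + 3) * (1 - 3 * (r + 1) / (2 * n)) =
      9 * n / (n + 3) * ((n - r) / (2 * n ^ 2)) := by
    field_simp
    ring
  linear_combination ((n : ℝ) / (n + 3)) ^ r * this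

lemma adm_vv {n : ℕ} (hn : 0 < n) : Adm n (9 * n / (n + 3)) (vv n) := by
  have hn' : (0 : ℝ) < n := by positivity
  have hq0 : (0 : ℝ) ≤ (n : ℝ) / (n + 3) := by positivity
  have hq1 : (n : ℝ) / (n + 3) ≤ 1 := by
    rw [div_le_one (by positivity)]; linarith
  refine ⟨fun r hr => ?_, fun r hr => ?_, fun r hr m hm h => ?_⟩
  · rw [vv_sub hn]
    have : (r : ℝ) ≤ n := by exact_mod_cast hr
    have : (0 : ℝ) ≤ n - r := by linarith
    positivity
  · rw [vv_sub hn, vv_sub hn]
    have hr' : (r : ℝ) + 1 ≤ n := by exact_mod_cast hr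
    refine mul_le_mul_of_nonneg_left ?_ (by positivity)
    rw [pow_succ, Nat.cast_add, Nat.cast_one]
    refine mul_le_mul ?_ ?_ ?_ (by positivity)
    · exact mul_le_of_le_one_right (by positivity) hq1
    · refine div_le_div_of_nonneg_right ?_ (by positivity)
      linarith
    · have : (0 : ℝ) ≤ n - (r + 1) := by linarith
      positivity
  · rw [vv_sub hn]
    have hA : (0 : ℝ) ≤ 9 * n / (n + 3) * ((n : ℝ) / (n + 3)) ^ r / (2 * n ^ 2) := by positivity
    have := mul_le_mul_of_nonneg_left h hA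
    have e1 : 9 * (n : ℝ) / (n + 3) * ((n : ℝ) / (n + 3)) ^ r / (2 * n ^ 2) *
        (n * (2 * n - 3 * r)) = 9 * n / (n + 3) * vv n r := by
      rw [vv]; field_simp
    have e2 : 9 * (n : ℝ) / (n + 3) * ((n : ℝ) / (n + 3)) ^ r / (2 * n ^ 2) *
        ((n - r) * m) = 9 * n / (n + 3) * (((n : ℝ) / (n + 3)) ^ r * ((n - r) / (2 * n ^ 2))) * m := by
      ring
    rw [e1, e2] at this
    exact this

theorem total_vv [FiniteDimensional k V] [Nonempty ι] {w : ι × Bool → V} (hW : Wald k w) :
    ∑ s : ι → Bool, vv (Fintype.card ι) (rk k w (fun i => some (s i))) ≤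
      2 ^ Fintype.card ι * (2 : ℝ) ^ (-(9 * (Fintype.card ι : ℝ) / (Fintype.card ι + 3))) := by
  have := total (adm_vv (Fintype.card_pos (α := ι))) hW
  simpa [vv] using this

end Pool.Agent.L7h10.SA
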